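import Mathlib

/-!
Fibres, conditional averages, disjoint boxes and the basic inequality for hidden coordinates.
-/

namespace Pool.Agent.Lib.MP_79d702_lc.NBP

open Finset

section fib

variable {α β : Type*} [DecidableEq β]

/-- the elements of `Y` with the same key as `x` -/
def fib (c : α → β) (Y : Finset α) (x : α) : Finset α := Y.filter fun y => c y = c x

/-- the average of `g` over the fibre of `x` -/
noncomputable def cav (c : α → β) (Y : Finset α) (g : α → ℝ) (x : α) : ℝ :=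
  (∑ y ∈ fib c Y x, g y) / (fib c Y x).card

variable {c : α → β} {Y : Finset α}

theorem mem_fib {x y : α} : y ∈ fib c Y x ↔ y ∈ Y ∧ c y = c x := by simp [fib]

theorem fib_congr {x y : α} (h : c x = c y) : fib c Y x = fib c Y y := by simp [fib, h]

theorem cav_congr (g : α → ℝ) {x y : α} (h : c x = c y) : cav c Y g x = cav c Y g y := by
  simp [cav, fib_congr h]

theorem card_fib_pos {x : α} (hx : x ∈ Y) : (0 : ℝ) < (fib c Y x).card := by
  have : (fib c Y x).Nonempty := ⟨x, mem_fib.2 ⟨hx, rfl⟩⟩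
  exact_mod_cast this.card_pos

theorem sum_cav (g : α → ℝ) : ∑ x ∈ Y, cav c Y g x = ∑ x ∈ Y, g x := by
  have h1 : ∀ x ∈ Y, cav c Y g x =
      ∑ y ∈ Y, if c y = c x then g y / (fib c Y y).card else 0 := by
    intro x _
    rw [cav, sum_div, fib, sum_filter]
    refine sum_congr rfl fun y _ => ?_
    split_ifs with h
    · rw [fib_congr h, fib]
    · rfl
  rw [sum_congr rfl h1, sum_comm]
  refine sum_congr rfl fun y hy => ?_
  rw [← sum_filter, sum_const, nsmul_eq_mul]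
  have : (Y.filter fun x => c y = c x) = fib c Y y := by
    ext x; simp [fib, eq_comm]
  rw [this]
  have := card_fib_pos (c := c) hy
  field_simp

theorem mul_cav (φ g : α → ℝ) (hφ : ∀ x y, c x = c y → φ x = φ y) (x : α) :
    φ x * cav c Y g x = cav c Y (fun y => φ y * g y) x := by
  rw [cav, cav, mul_div_assoc', mul_sum]
  congr 1
  exact sum_congr rfl fun y hy => by rw [hφ y x (mem_fib.1 hy).2]

theorem sum_mul_cav (φ g : α → ℝ) (hφ : ∀ x y, c x = c y → φ x = φ y) :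
    ∑ x ∈ Y, φ x * cav c Y g x = ∑ x ∈ Y, φ x * g x := by
  rw [sum_congr rfl fun x _ => mul_cav φ g hφ x, sum_cav]

theorem cav_nonneg {g : α → ℝ} (hg : ∀ y, 0 ≤ g y) (x : α) : 0 ≤ cav c Y g x :=
  div_nonneg (sum_nonneg fun y _ => hg y) (Nat.cast_nonneg _)

theorem cav_le_one {g : α → ℝ} (hg : ∀ y, g y ≤ 1) (x : α) : cav c Y g x ≤ 1 := by
  rw [cav]
  refine div_le_one_of_le₀ ?_ (Nat.cast_nonneg _)
  calc _ ≤ ∑ y ∈ fib c Y x, (1 : ℝ) := sum_le_sum fun y _ => hg y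
    _ = _ := by simp

theorem fib_fib {γ : Type*} [DecidableEq γ] {d : α → γ} (h : ∀ x y, d x = d y → c x = c y)
    {x y : α} (hy : y ∈ fib c Y x) : fib d (fib c Y x) y = fib d Y y := by
  ext z
  simp only [mem_fib] at hy ⊢
  exact ⟨fun hz => ⟨hz.1.1, hz.2⟩, fun hz => ⟨⟨hz.1, (h _ _ hz.2).trans hy.2⟩, hz.2⟩⟩

/-- an inequality on every fibre gives the inequality on the whole set -/
theorem sum_le_of_fib {f g : α → ℝ}
    (h : ∀ x ∈ Y, ∑ y ∈ fib c Y x, f y ≤ ∑ y ∈ fib c Y x, g y) :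
    ∑ x ∈ Y, f x ≤ ∑ x ∈ Y, g x := by
  rw [← sum_cav (c := c) f, ← sum_cav (c := c) g]
  exact sum_le_sum fun x hx => div_le_div_of_nonneg_right (h x hx) (Nat.cast_nonneg _)

end fib

theorem boxes {ι A α : Type*} [Fintype ι] [DecidableEq ι] [Fintype A] [DecidableEq A]
    (ρ : ι → A → ℝ) (h0 : ∀ i a, 0 ≤ ρ i a) (h1 : ∀ i, ∑ a, ρ i a = 1)
    (Φ : Finset α) (T : α → ι → Finset A)
    (hd : ∀ y ∈ Φ, ∀ y' ∈ Φ, ∀ g : ι → A, (∀ i, g i ∈ T y i) → (∀ i, g i ∈ T y' i) → y = y') :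
    ∑ y ∈ Φ, ∏ i, ∑ a ∈ T y i, ρ i a ≤ 1 := by
  classical
  have e1 : ∀ y, ∏ i, ∑ a ∈ T y i, ρ i a =
      ∑ g ∈ Fintype.piFinset (T y), ∏ i, ρ i (g i) := fun y => prod_univ_sum _ _
  simp_rw [e1]
  rw [← sum_biUnion]
  · calc _ ≤ ∑ g ∈ Fintype.piFinset (fun _ : ι => (univ : Finset A)), ∏ i, ρ i (g i) :=
          sum_le_sum_of_subset_of_nonneg (fun g _ => by simp)
            fun g _ _ => prod_nonneg fun i _ => h0 _ _
      _ = ∏ i, ∑ a, ρ i a := (prod_univ_sum _ _).symm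
      _ = 1 := by simp [h1]
  · intro y hy y' hy' hne
    rw [Function.onFun, disjoint_left]
    intro g hg hg'
    exact hne (hd y hy y' hy' g (Fintype.mem_piFinset.1 hg) (Fintype.mem_piFinset.1 hg'))

theorem sum_log_le {α : Type*} (Φ : Finset α) (q : α → ℝ) (hq : ∀ y ∈ Φ, 0 < q y)
    (h : ∑ y ∈ Φ, q y ≤ 1) : ∑ y ∈ Φ, (Real.log Φ.card + Real.log (q y)) ≤ 0 := by
  calc _ ≤ ∑ y ∈ Φ, ((Φ.card : ℝ) * q y - 1) := by
        refine sum_le_sum fun y hy => ?_
        have hc : (0 : ℝ) < Φ.card := by exact_mod_cast card_pos.2 ⟨y, hy⟩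
        rw [← Real.log_mul hc.ne' (hq y hy).ne']
        exact Real.log_le_sub_one_of_pos (mul_pos hc (hq y hy))
    _ = Φ.card * (∑ y ∈ Φ, q y - 1) := by
        rw [sum_sub_distrib, ← mul_sum]; simp; ring
    _ ≤ 0 := mul_nonpos_of_nonneg_of_nonpos (Nat.cast_nonneg _) (by linarith)

theorem log_one_add_ge {t : ℝ} (h : -1 / 2 ≤ t) : t - 2 * t ^ 2 ≤ Real.log (1 + t) := by
  have h1 : 0 < 1 + t := by linarith
  refine le_trans ?_ (Real.one_sub_inv_le_log_of_pos h1)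
  have : 1 - (1 + t)⁻¹ = t / (1 + t) := by field_simp; ring
  rw [this, le_div_iff₀ h1]
  nlinarith [mul_nonneg (sq_nonneg t) (by linarith : 0 ≤ 1 + 2 * t)]

/-- a bit as a real number -/
def bt (b : Bool) : ℝ := if b then 1 else 0

/-- the probability of the bit `b` when `true` has probability `p` -/
def mu (p : ℝ) (b : Bool) : ℝ := if b then p else 1 - p

theorem bt_nonneg (b : Bool) : 0 ≤ bt b := by cases b <;> simp [bt]
theorem bt_le_one (b : Bool) : bt b ≤ 1 := by cases b <;> simp [bt]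

/-- the factor of one coordinate -/
noncomputable def fac (η p : ℝ) (b : Bool) (hid : Prop) [Decidable hid] : ℝ :=
  (1 - η * (p * (1 - p))) * mu p b + if hid then η * (p * (1 - p)) else 0

theorem fac_pos {η p : ℝ} {b : Bool} (hid : Prop) [Decidable hid] (hη : 0 ≤ η) (hη1 : η ≤ 1)
    (h0 : 0 ≤ p) (h1 : p ≤ 1) (hm : 0 < mu p b) : 0 < fac η p b hid := by
  have a1 : 0 ≤ p * (1 - p) := mul_nonneg h0 (by linarith)
  have a2 : p * (1 - p) ≤ 1 / 4 := by nlinarith [sq_nonneg (p - 1 / 2)]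
  have a3 : η * (p * (1 - p)) ≤ 1 / 4 := by nlinarith
  have a4 : 0 < (1 - η * (p * (1 - p))) * mu p b := mul_pos (by linarith) hm
  unfold fac
  split_ifs
  · have := mul_nonneg hη a1; linarith
  · linarith

theorem log_fac_not {η p : ℝ} {b : Bool} {hid : Prop} [Decidable hid] (hη : 0 ≤ η) (hη1 : η ≤ 1)
    (h0 : 0 ≤ p) (h1 : p ≤ 1) (hm : 0 < mu p b) (hh : ¬ hid) :
    Real.log (mu p b) - η * (p * (1 - p)) - 2 * η ^ 2 ≤ Real.log (fac η p b hid) := by
  have a1 : 0 ≤ p * (1 - p) := mul_nonneg h0 (by linarith)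
  have a2 : p * (1 - p) ≤ 1 / 4 := by nlinarith [sq_nonneg (p - 1 / 2)]
  have a3 : η * (p * (1 - p)) ≤ 1 / 4 := by nlinarith
  have a4 : 0 ≤ η * (p * (1 - p)) := mul_nonneg hη a1
  have a5 : η * (p * (1 - p)) ≤ η := by nlinarith
  have h2 := log_one_add_ge (t := -(η * (p * (1 - p)))) (by linarith)
  rw [fac, if_neg hh, add_zero, Real.log_mul (by linarith) hm.ne']
  have : (-(η * (p * (1 - p)))) ^ 2 ≤ η ^ 2 := by nlinarith
  rw [← sub_eq_add_neg] at h2
  linarith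

theorem log_fac_hid {η p : ℝ} {b : Bool} {hid : Prop} [Decidable hid] (hη : 0 ≤ η)
    (h0 : 0 ≤ p) (h1 : p ≤ 1) (hm : 0 < mu p b) (hh : hid) :
    Real.log (mu p b) + η * (1 - mu p b) ^ 2 - 2 * η ^ 2 ≤ Real.log (fac η p b hid) := by
  have a0 : mu p b ≤ 1 := by cases b <;> simp [mu] <;> linarith
  have a1 : fac η p b hid = (1 + η * (1 - mu p b) ^ 2) * mu p b := by
    rw [fac, if_pos hh]; cases b <;> simp [mu] <;> ring
  have a2 : 0 ≤ η * (1 - mu p b) ^ 2 := by positivity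
  have a3 : η * (1 - mu p b) ^ 2 ≤ η := by
    have : (1 - mu p b) ^ 2 ≤ 1 := by nlinarith
    nlinarith
  have h2 := log_one_add_ge (t := η * (1 - mu p b) ^ 2) (by linarith)
  rw [a1, Real.log_mul (by linarith) hm.ne']
  have : (η * (1 - mu p b) ^ 2) ^ 2 ≤ η ^ 2 := by nlinarith
  linarith

end Pool.Agent.Lib.MP_79d702_lc.NBP
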