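import Mathlib

/-!
Set functions on a cube: double counting, a variance bound, two complementary good sets, and
the choice of a scale at which a family of entropy functions is almost additive.
-/

namespace Pool.Agent.Lib.MP_79d702_lc.NBP

open Finset

variable {κ : Type*} [Fintype κ] [DecidableEq κ]

theorem sum_insert_level (t : ℕ) (g : Finset κ → κ → ℝ) :
    ∑ K ∈ powersetCard t (univ : Finset κ), ∑ k ∈ Kᶜ, g (insert k K) k =
      ∑ K ∈ powersetCard (t + 1) (univ : Finset κ), ∑ k ∈ K, g K k := by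
  rw [sum_sigma', sum_sigma']
  refine sum_nbij' (fun p => ⟨insert p.2 p.1, p.2⟩) (fun p => ⟨p.1.erase p.2, p.2⟩) ?_ ?_ ?_ ?_ ?_
  · rintro ⟨K, k⟩ h
    simp only [mem_sigma, mem_powersetCard, mem_compl] at h ⊢
    exact ⟨⟨subset_univ _, by rw [card_insert_of_notMem h.2, h.1.2]⟩, mem_insert_self _ _⟩
  · rintro ⟨K, k⟩ h
    simp only [mem_sigma, mem_powersetCard, mem_compl] at h ⊢
    exact ⟨⟨subset_univ _, by rw [card_erase_of_mem h.2, h.1.2]; rfl⟩, notMem_erase _ _⟩
  · rintro ⟨K, k⟩ h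
    simp only [mem_sigma, mem_compl] at h
    simp [erase_insert h.2]
  · rintro ⟨K, k⟩ h
    simp only [mem_sigma] at h
    simp [insert_erase h.2]
  · intro _ _; rfl

theorem level_bound (v : Finset κ → ℝ) (h0 : ∀ K, 0 ≤ v K)
    (h : ∀ K, ∑ k ∈ Kᶜ, (v K - v (insert k K)) ≤ 2 * v K) (t : ℕ) :
    v ∅ * ((Fintype.card κ - 2).choose t : ℝ) ≤ ∑ K ∈ powersetCard t (univ : Finset κ), v K := by
  induction t with
  | zero => simp
  | succ t ih =>
    by_cases ht : t + 2 ≤ Fintype.card κ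
    · have e1 := sum_insert_level t (fun K _ => v K)
      have e2 : ∑ K ∈ powersetCard (t + 1) (univ : Finset κ), ∑ k ∈ K, v K =
          (t + 1 : ℝ) * ∑ K ∈ powersetCard (t + 1) (univ : Finset κ), v K := by
        rw [mul_sum]
        refine sum_congr rfl fun K hK => ?_
        rw [sum_const, (mem_powersetCard.1 hK).2, nsmul_eq_mul]; push_cast; ring
      have e3 : ((Fintype.card κ - 2 - t : ℕ) : ℝ) * ∑ K ∈ powersetCard t (univ : Finset κ), v K ≤
          ∑ K ∈ powersetCard t (univ : Finset κ), ∑ k ∈ Kᶜ, v (insert k K) := by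
        rw [mul_sum]
        refine sum_le_sum fun K hK => ?_
        have h1 := h K
        rw [sum_sub_distrib, sum_const, card_compl, (mem_powersetCard.1 hK).2, nsmul_eq_mul] at h1
        have : ((Fintype.card κ - t : ℕ) : ℝ) = ((Fintype.card κ - 2 - t : ℕ) : ℝ) + 2 := by
          norm_cast; omega
        rw [this] at h1
        linarith
      have e4 : (((Fintype.card κ - 2).choose (t + 1) : ℕ) : ℝ) * (t + 1) =
          ((Fintype.card κ - 2).choose t : ℕ) * ((Fintype.card κ - 2 - t : ℕ) : ℝ) := by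
        exact_mod_cast Nat.choose_succ_right_eq _ _
      have e5 := mul_le_mul_of_nonneg_left ih (Nat.cast_nonneg (Fintype.card κ - 2 - t))
      refine le_of_mul_le_mul_left ?_ (by positivity : (0 : ℝ) < t + 1)
      rw [← e2, ← e1]
      calc _ = v ∅ * ((((Fintype.card κ - 2).choose (t + 1) : ℕ) : ℝ) * (t + 1)) := by ring
        _ = _ := by rw [e4]
        _ ≤ _ := by linarith
    · rw [Nat.choose_eq_zero_of_lt (by omega)]
      simpa using sum_nonneg fun K _ => h0 K

theorem mean_bound (hr : 2 ≤ Fintype.card κ) (v : Finset κ → ℝ) (h0 : ∀ K, 0 ≤ v K)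
    (h : ∀ K, ∑ k ∈ Kᶜ, (v K - v (insert k K)) ≤ 2 * v K) :
    v ∅ * 2 ^ Fintype.card κ / 4 ≤ ∑ K, v K := by
  rw [← powerset_univ, sum_powerset, card_univ]
  refine le_trans ?_ (sum_le_sum fun t _ => level_bound v h0 h t)
  rw [← mul_sum]
  obtain ⟨m, hm⟩ := Nat.exists_eq_add_of_le' hr
  rw [hm, Nat.add_sub_cancel]
  have h1 : ∑ t ∈ range (m + 1), (m.choose t : ℝ) = 2 ^ m := by exact_mod_cast Nat.sum_range_choose m
  have h2 : ∑ t ∈ range (m + 1), (m.choose t : ℝ) ≤ ∑ t ∈ range (m + 2 + 1), (m.choose t : ℝ) :=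
    sum_le_sum_of_subset_of_nonneg (range_mono (by omega)) fun _ _ _ => Nat.cast_nonneg _
  have := mul_le_mul_of_nonneg_left (h1 ▸ h2) (h0 ∅)
  rw [pow_add]; linarith

omit [Fintype κ] in
theorem poincare {L : ℝ} (s : Finset κ) : ∀ f : Finset κ → ℝ,
    (∀ K k, |f K - f (insert k K)| ≤ L) →
    2 ^ s.card * ∑ K ∈ s.powerset, f K ^ 2 - (∑ K ∈ s.powerset, f K) ^ 2 ≤
      (2 ^ s.card) ^ 2 * s.card * L ^ 2 / 4 := by
  induction s using Finset.induction_on with
  | empty => intro f _; simp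
  | insert a s ha ih =>
    intro f hf
    have h1 := ih (fun K => (f K + f (insert a K)) / 2) fun K k => by
      have a1 := abs_le.1 (hf K k)
      have a2 := abs_le.1 (hf (insert a K) k)
      rw [insert_comm k a K] at a2
      rw [abs_le]; constructor <;> linarith [a1.1, a1.2, a2.1, a2.2]
    rw [sum_powerset_insert ha, sum_powerset_insert ha, card_insert_of_notMem ha]
    have h2 : ∑ K ∈ s.powerset, f K ^ 2 + ∑ K ∈ s.powerset, f (insert a K) ^ 2 ≤
        2 * ∑ K ∈ s.powerset, ((f K + f (insert a K)) / 2) ^ 2 + 2 ^ s.card * (L ^ 2 / 2) := by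
      rw [mul_sum, ← sum_add_distrib, show (2 : ℝ) ^ s.card * (L ^ 2 / 2) =
        ∑ K ∈ s.powerset, L ^ 2 / 2 by simp, ← sum_add_distrib]
      refine sum_le_sum fun K _ => ?_
      have := sq_le_sq' (abs_le.1 (hf K a)).1 (abs_le.1 (hf K a)).2
      nlinarith
    have h3 : ∑ K ∈ s.powerset, f K + ∑ K ∈ s.powerset, f (insert a K) =
        2 * ∑ K ∈ s.powerset, (f K + f (insert a K)) / 2 := by
      rw [mul_sum, ← sum_add_distrib]; exact sum_congr rfl fun K _ => by ring
    rw [h3, pow_succ]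
    have h4 := mul_le_mul_of_nonneg_left h2 (by positivity : (0 : ℝ) ≤ 2 ^ s.card * 2)
    push_cast
    nlinarith

theorem two_sided (hr : 2 ≤ Fintype.card κ) (w : Finset κ → ℝ) {w0 E L c : ℝ} (hE : 0 ≤ E)
    (h0 : ∀ K, 0 ≤ w K) (hL : ∀ K k, |w K - w (insert k K)| ≤ L)
    (h : ∀ K, ∑ k ∈ Kᶜ, (w K - w (insert k K)) ≤ 2 * w K + E) (hw : w0 ≤ w ∅)
    (hc : 0 ≤ w0 / 4 - E / 2 - c) (hv : Fintype.card κ * L ^ 2 < 2 * (w0 / 4 - E / 2 - c) ^ 2) :
    ∃ K, c ≤ w K ∧ c ≤ w Kᶜ := by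
  by_contra hcon
  push Not at hcon
  have h1 := mean_bound hr (fun K => w K + E / 2) (fun K => by linarith [h0 K]) fun K => by
    have := h K
    simp only [add_sub_add_right_eq_sub]; linarith
  have h2 := poincare (univ : Finset κ) w hL
  rw [powerset_univ, card_univ] at h2
  set N : ℝ := 2 ^ Fintype.card κ with hN
  have hN0 : 0 < N := by positivity
  have hcard : ((univ : Finset (Finset κ)).card : ℝ) = N := by simp [hN]
  rw [sum_add_distrib, sum_const, nsmul_eq_mul, hcard] at h1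
  set M : ℝ := (∑ K, w K) / N with hM
  have hM1 : ∑ K, w K = M * N := by rw [hM]; field_simp
  have hM2 : w0 / 4 - E / 2 ≤ M := by
    rw [hM, le_div_iff₀ hN0]; nlinarith
  have h3 : ∑ K, (w K - M) ^ 2 = ∑ K, w K ^ 2 - N * M ^ 2 := by
    have : ∀ K, (w K - M) ^ 2 = w K ^ 2 - 2 * M * w K + M ^ 2 := fun K => by ring
    simp_rw [this]
    rw [sum_add_distrib, sum_sub_distrib, ← mul_sum, hM1, sum_const, nsmul_eq_mul, hcard]; ring
  have h4 : ∑ K : Finset κ, (w Kᶜ - M) ^ 2 = ∑ K, (w K - M) ^ 2 :=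
    Fintype.sum_bijective _ compl_bijective _ _ fun _ => rfl
  have h5 : ∑ K : Finset κ, (w0 / 4 - E / 2 - c) ^ 2 ≤
      ∑ K : Finset κ, ((w K - M) ^ 2 + (w Kᶜ - M) ^ 2) := by
    refine sum_le_sum fun K _ => ?_
    by_cases hK : c ≤ w K
    · have := hcon K hK
      nlinarith [sq_nonneg (w K - M)]
    · have := not_le.1 hK
      nlinarith [sq_nonneg (w Kᶜ - M)]
  rw [sum_add_distrib, h4, h3, sum_const, nsmul_eq_mul, hcard] at h5
  rw [hM1] at h2
  have h6 : N * (N * (w0 / 4 - E / 2 - c) ^ 2) ≤ N * (N * (Fintype.card κ * L ^ 2 / 2)) := by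
    nlinarith
  have := le_of_mul_le_mul_left (le_of_mul_le_mul_left h6 hN0) hN0
  linarith

theorem sum_card_inter (j : ℕ) (A : Finset κ) :
    (Fintype.card κ : ℝ) * ∑ S ∈ powersetCard j (univ : Finset κ), ((S ∩ A).card : ℝ) =
      j * A.card * (Fintype.card κ).choose j := by
  cases j with
  | zero => simp
  | succ t =>
    have h1 : ∀ a : κ, ∑ S ∈ powersetCard (t + 1) (univ : Finset κ), (if a ∈ S then (1 : ℝ) else 0) =
        (Fintype.card κ - 1).choose t := by
      intro a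
      have e1 := sum_insert_level t (fun _ k => if k = a then (1 : ℝ) else 0)
      simp only [sum_ite_eq', mem_compl] at e1
      rw [← e1, ← sum_filter, sum_const, nsmul_eq_mul, mul_one]
      have : (powersetCard t (univ : Finset κ)).filter (fun K => a ∉ K) =
          powersetCard t (univ.erase a) := by
        ext K; simp [subset_erase, and_comm]
      rw [this, card_powersetCard, card_erase_of_mem (mem_univ a), card_univ]
    have h2 : ∑ S ∈ powersetCard (t + 1) (univ : Finset κ), ((S ∩ A).card : ℝ) =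
        ∑ a ∈ A, ∑ S ∈ powersetCard (t + 1) (univ : Finset κ), (if a ∈ S then (1 : ℝ) else 0) := by
      rw [sum_comm]
      refine sum_congr rfl fun S _ => ?_
      rw [sum_ite_mem, inter_comm]; simp
    rw [h2, sum_congr rfl fun a _ => h1 a, sum_const, nsmul_eq_mul]
    rcases Nat.eq_zero_or_pos (Fintype.card κ) with h | h
    · have : A.card = 0 := by have := card_le_univ A; omega
      simp [this]
    · obtain ⟨m, hm⟩ := Nat.exists_eq_add_of_le' h
      have h3 : ((m + 1 : ℕ) : ℝ) * (m.choose t : ℕ) = ((m + 1).choose (t + 1) : ℕ) * (t + 1 : ℕ) := by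
        exact_mod_cast Nat.add_one_mul_choose_eq m t
      rw [hm, Nat.add_sub_cancel]
      calc _ = A.card * (((m + 1 : ℕ) : ℝ) * (m.choose t : ℕ)) := by ring
        _ = _ := by rw [h3]; ring

theorem excess_eq (F : Finset κ → ℝ) {t : ℕ} (h1 : 1 ≤ t) (ht : t + 1 ≤ Fintype.card κ) :
    ∑ S ∈ powersetCard (t + 1) (univ : Finset κ), (∑ i ∈ S, (F S - F (S.erase i)) - F S) =
      (Fintype.card κ).choose (t + 1) * ((t + 1) * t) *
        ((∑ S ∈ powersetCard (t + 1) (univ : Finset κ), F S) /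
            ((Fintype.card κ).choose (t + 1) * (t + 1 : ℕ)) -
          (∑ S ∈ powersetCard t (univ : Finset κ), F S) / ((Fintype.card κ).choose t * t)) := by
  have e1 := sum_insert_level t (fun S i => F (S.erase i))
  have e2 : ∑ K ∈ powersetCard t (univ : Finset κ), ∑ k ∈ Kᶜ, F ((insert k K).erase k) =
      ((Fintype.card κ - t : ℕ) : ℝ) * ∑ S ∈ powersetCard t (univ : Finset κ), F S := by
    rw [mul_sum]
    refine sum_congr rfl fun K hK => ?_
    rw [sum_congr rfl fun k hk => by rw [erase_insert (mem_compl.1 hk)], sum_const, card_compl,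
      (mem_powersetCard.1 hK).2, nsmul_eq_mul]
  have e3 : ∑ S ∈ powersetCard (t + 1) (univ : Finset κ), ∑ i ∈ S, F S =
      (t + 1 : ℝ) * ∑ S ∈ powersetCard (t + 1) (univ : Finset κ), F S := by
    rw [mul_sum]
    refine sum_congr rfl fun K hK => ?_
    rw [sum_const, (mem_powersetCard.1 hK).2, nsmul_eq_mul]; push_cast; ring
  have e4 : (((Fintype.card κ).choose (t + 1) : ℕ) : ℝ) * (t + 1) =
      ((Fintype.card κ).choose t : ℕ) * ((Fintype.card κ - t : ℕ) : ℝ) := by
    exact_mod_cast Nat.choose_succ_right_eq _ _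
  have p1 : (0 : ℝ) < (Fintype.card κ).choose (t + 1) := by exact_mod_cast Nat.choose_pos ht
  have p2 : (0 : ℝ) < (Fintype.card κ).choose t := by exact_mod_cast Nat.choose_pos (by omega)
  have p3 : (0 : ℝ) < t := by exact_mod_cast h1
  simp_rw [sum_sub_distrib]
  rw [← e1, e2, e3]
  have e5 : ((Fintype.card κ - t : ℕ) : ℝ) =
      (Fintype.card κ).choose (t + 1) * (t + 1) / (Fintype.card κ).choose t := by
    rw [e4]; field_simp
  rw [e5]
  push_cast
  field_simp
  ring

theorem window {γ : Type*} [Fintype γ] (F : γ → Finset κ → ℝ) {B : ℝ}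
    (h0 : ∀ K S, 0 ≤ F K S) (h1 : ∀ K S, F K S ≤ B * S.card)
    (h2 : ∀ K S, 0 ≤ ∑ i ∈ S, (F K S - F K (S.erase i)) - F K S)
    {b Λ : ℕ} (hb : 1 ≤ b) (hΛ : 1 ≤ Λ) (hn : b * 2 ^ Λ ≤ Fintype.card κ) :
    ∃ l < Λ, ∃ j, b * 2 ^ l < j ∧ j ≤ 2 * (b * 2 ^ l) ∧ ∀ K,
      ∑ S ∈ powersetCard j (univ : Finset κ), (∑ i ∈ S, (F K S - F K (S.erase i)) - F K S) ≤
        (Fintype.card κ).choose j * (4 * j * (Fintype.card γ * B / Λ)) := by
  classical
  let g : γ → ℕ → ℝ := fun K j =>
    (∑ S ∈ powersetCard j (univ : Finset κ), F K S) / ((Fintype.card κ).choose j * j)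
  let G : ℕ → ℝ := fun j => ∑ K, g K j
  have hG0 : ∀ j, 0 ≤ G j := fun j => sum_nonneg fun K _ =>
    div_nonneg (sum_nonneg fun S _ => h0 K S) (by positivity)
  have hbΛ : 1 ≤ b * 2 ^ Λ := Nat.mul_pos hb (by positivity)
  have hG1 : G (b * 2 ^ Λ) ≤ Fintype.card γ * B := by
    calc _ ≤ ∑ K : γ, B := sum_le_sum fun K _ => ?_
      _ = _ := by simp
    have p1 : (0 : ℝ) < (Fintype.card κ).choose (b * 2 ^ Λ) := by exact_mod_cast Nat.choose_pos hn
    have p2 : (0 : ℝ) < (b * 2 ^ Λ : ℕ) := by exact_mod_cast hbΛ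
    simp only [g]
    rw [div_le_iff₀ (mul_pos p1 p2)]
    calc _ ≤ ∑ S ∈ powersetCard (b * 2 ^ Λ) (univ : Finset κ), B * (b * 2 ^ Λ : ℕ) :=
          sum_le_sum fun S hS => by have := h1 K S; rwa [(mem_powersetCard.1 hS).2] at this
      _ = _ := by rw [sum_const, card_powersetCard, card_univ, nsmul_eq_mul]; ring
  have pΛ : (0 : ℝ) < Λ := by exact_mod_cast hΛ
  obtain ⟨l, hl, hl2⟩ := exists_le_of_sum_le (s := range Λ) ⟨0, mem_range.2 hΛ⟩
    (f := fun l => G (b * 2 ^ (l + 1)) - G (b * 2 ^ l)) (g := fun _ => Fintype.card γ * B / Λ) (by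
      rw [sum_range_sub (fun l => G (b * 2 ^ l)), sum_const, card_range, nsmul_eq_mul,
        mul_div_cancel₀ _ pΛ.ne']
      linarith [hG0 (b * 2 ^ 0)])
  set u := b * 2 ^ l with hu
  have hu1 : 1 ≤ u := Nat.mul_pos hb (by positivity)
  have pu : (0 : ℝ) < u := by exact_mod_cast hu1
  have hu2 : b * 2 ^ (l + 1) = u + u := by rw [hu, pow_succ]; ring
  have hu3 : u + u ≤ Fintype.card κ := by
    rw [← hu2]
    exact (Nat.mul_le_mul_left _ (Nat.pow_le_pow_right (by omega) (mem_range.1 hl))).trans hn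
  obtain ⟨t, ht, ht2⟩ := exists_le_of_sum_le (s := range u) ⟨0, mem_range.2 hu1⟩
    (f := fun t => G (u + (t + 1)) - G (u + t)) (g := fun _ => Fintype.card γ * B / Λ / u) (by
      rw [sum_range_sub (fun t => G (u + t)), sum_const, card_range, nsmul_eq_mul,
        mul_div_cancel₀ _ pu.ne', ← hu2]
      exact hl2)
  have ht1 := mem_range.1 ht
  refine ⟨l, mem_range.1 hl, u + t + 1, by omega, by omega, fun K => ?_⟩
  have p1 : (0 : ℝ) < (Fintype.card κ).choose (u + t + 1) := by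
    exact_mod_cast Nat.choose_pos (by omega)
  have p2 : (0 : ℝ) < ((u + t : ℕ) : ℝ) := by exact_mod_cast (by omega : 0 < u + t)
  have hd : ∀ K, 0 ≤ g K (u + t + 1) - g K (u + t) := fun K => by
    have := sum_nonneg fun S (_ : S ∈ powersetCard (u + t + 1) (univ : Finset κ)) => h2 K S
    rw [excess_eq (F K) (by omega) (by omega)] at this
    exact nonneg_of_mul_nonneg_right this (by positivity) |> fun h => h
  have hK : g K (u + t + 1) - g K (u + t) ≤ Fintype.card γ * B / Λ / u := by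
    refine le_trans ?_ ht2
    simp only [G]
    rw [← sum_sub_distrib]
    exact single_le_sum (f := fun K => g K (u + t + 1) - g K (u + t)) (fun K _ => hd K) (mem_univ K)
  rw [excess_eq (F K) (by omega) (by omega), mul_assoc]
  refine mul_le_mul_of_nonneg_left ?_ p1.le
  change _ * (g K (u + t + 1) - g K (u + t)) ≤ _
  have p3 : ((u + t : ℕ) : ℝ) ≤ 2 * u := by exact_mod_cast (by omega : u + t ≤ 2 * u)
  have p4 : 0 ≤ Fintype.card γ * B / Λ / u := (hd K).trans hK
  have p5 : Fintype.card γ * B / Λ = Fintype.card γ * B / Λ / u * u := by field_simp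
  rw [p5]
  generalize Fintype.card γ * B / Λ / u = x at *
  have := mul_le_mul_of_nonneg_left hK (by positivity : (0 : ℝ) ≤ (((u + t : ℕ) : ℝ) + 1) * (u + t : ℕ))
  have p6 : ((u + t + 1 : ℕ) : ℝ) = ((u + t : ℕ) : ℝ) + 1 := by push_cast; ring
  rw [p6]
  nlinarith [mul_nonneg (mul_nonneg (by positivity : (0 : ℝ) ≤ ((u + t : ℕ) : ℝ) + 1) p4) pu.le,
    mul_le_mul_of_nonneg_left p3 (mul_nonneg (by positivity : (0 : ℝ) ≤ ((u + t : ℕ) : ℝ) + 1) p4)]

end Pool.Agent.Lib.MP_79d702_lc.NBP
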