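import Mathlib

/-!
Interfaces between the parts of the lower bound.
-/

namespace Pool.Agent.Lib.MP_79d702_lc.NBP

open Finset

variable {ι κ : Type*}

/-- the points of `P` agree off `U`, and no half of `U` determines them -/
def Free (P : Finset (ι → Bool)) (U : Finset ι) : Prop :=
  (∀ y ∈ P, ∀ y' ∈ P, ∀ i ∉ U, y i = y' i) ∧
    ∀ T ⊆ U, 2 * T.card ≤ U.card → ∃ y ∈ P, ∃ y' ∈ P, y ≠ y' ∧ ∀ i ∈ T, y i = y' i

/-- `f` accepts no embedded rectangle whose two sides are free on equally large subsets of `A` -/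
def NoRect [DecidableEq ι] (f : (ι → Bool) → Prop) (A : Finset ι) : Prop :=
  ∀ (D U₁ U₂ : Finset ι) (P₁ P₂ : Finset (ι → Bool)), U₁ ⊆ A → U₂ ⊆ A → U₁ ⊆ D → Disjoint U₂ D →
    U₁.card = U₂.card → Free P₁ U₁ → Free P₂ U₂ →
    ¬ ∀ y₁ ∈ P₁, ∀ y₂ ∈ P₂, f fun i => if i ∈ D then y₁ i else y₂ i

/-- a set of inputs, each with its variables distributed over segments -/
structure Seg [Fintype ι] [DecidableEq κ] (f : (ι → Bool) → Prop) (A : Finset ι) (m : ℕ)
    (X : Finset (ι → Bool)) (τ : (ι → Bool) → ι → κ) : Prop where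
  /-- a segment is determined by the values it reads -/
  det : ∀ x ∈ X, ∀ x' ∈ X, ∀ k, (∀ i, τ x i = k ∨ τ x' i = k → x i = x' i) →
    ∀ i, τ x i = k ↔ τ x' i = k
  /-- segments are short -/
  short : ∀ x ∈ X, ∀ k, (univ.filter fun i => τ x i = k).card ≤ m
  /-- segments can be exchanged -/
  mix : ∀ x ∈ X, ∀ x' ∈ X, ∀ J : Finset κ, (∀ i, τ x i ∈ J ↔ τ x' i ∈ J) →
    f fun i => if τ x i ∈ J then x i else x' i
  /-- the variables outside `A` are fixed -/
  fixed : ∀ x ∈ X, ∀ x' ∈ X, ∀ i ∉ A, x i = x' i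

end Pool.Agent.Lib.MP_79d702_lc.NBP
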