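import Pool.Agent.Lib.MP_79d702_lc.NBP.Core1
import Pool.Agent.Lib.MP_79d702_lc.NBP.Cube
import Pool.Agent.Lib.MP_79d702_lc.NBP.Iface

/-!
A large set of inputs with exchangeable short segments contains a free rectangle.
-/

namespace Pool.Agent.Lib.MP_79d702_lc.NBP

open Finset

variable {ι κ : Type*} [Fintype ι] [DecidableEq ι] [Fintype κ] [DecidableEq κ]

/-- the segments in `J` can be replaced by those of a set that is free on `s` variables -/
def Good (τ : (ι → Bool) → ι → κ) (A : Finset ι) (X : Finset (ι → Bool)) (s : ℕ) (x : ι → Bool)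
    (J : Finset κ) : Prop :=
  ∃ (U : Finset ι) (P : Finset (ι → Bool)), U.card = s ∧ U ⊆ A ∧ (∀ i ∈ U, τ x i ∈ J) ∧ P ⊆ X ∧
    Free P U ∧ ∀ y ∈ P, ∀ i, τ y i ∈ J ↔ τ x i ∈ J

variable {τ : (ι → Bool) → ι → κ} {A : Finset ι} {X Y : Finset (ι → Bool)}

theorem extract_one {K : Finset κ} {S : Finset ι} (hY : Y ⊆ X)
    (hfix : ∀ x ∈ X, ∀ x' ∈ X, ∀ i ∉ A, x i = x' i) {s : ℕ} {η : ℝ} (hs : 0 < s)
    (h1 : 100 * s ≤ S.card) (h2 : S.card ≤ 200 * s) (hη : 0 < η) (hη1 : η ≤ 1 / 10 ^ 4)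
    {x : ι → Bool} (hx : x ∈ Y) (h : (S.card : ℝ) / 200 ≤
      vr τ Y K S x - 1 / (200 * η ^ 2) * cav (key τ K S) Y (tc τ Y K S) x) :
    Good τ A X s x Kᶜ := by
  have c0 := card_fib_pos (c := key τ K S) hx
  have t0 : 0 ≤ cav (key τ K S) Y (tc τ Y K S) x := div_nonneg (cav_tc_nonneg hx) c0.le
  have q4 : ∀ i, pr τ Y K S x i * (1 - pr τ Y K S x i) ≤ 1 / 4 := fun i => by
    nlinarith [sq_nonneg (pr τ Y K S x i - 1 / 2)]
  have l0 : 0 < 1 / (200 * η ^ 2) := by positivity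
  have v4 : vr τ Y K S x ≤ S.card / 4 := by
    calc _ ≤ ∑ i ∈ S, (1 / 4 : ℝ) := sum_le_sum fun i _ => q4 i
      _ = _ := by rw [sum_const, nsmul_eq_mul]; ring
  set G := S.filter fun i => 1 / 400 ≤ pr τ Y K S x i * (1 - pr τ Y K S x i) with hG
  have v5 : vr τ Y K S x ≤ G.card / 4 + S.card / 400 := by
    calc _ ≤ ∑ i ∈ S, ((if 1 / 400 ≤ pr τ Y K S x i * (1 - pr τ Y K S x i) then (1 / 4 : ℝ)
            else 0) + 1 / 400) := sum_le_sum fun i _ => by
          split_ifs with a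
          · linarith [q4 i]
          · linarith [not_le.1 a]
      _ = _ := by
          rw [sum_add_distrib, ← sum_filter, sum_const, sum_const, nsmul_eq_mul, nsmul_eq_mul]
          ring
  have h1' : (100 * s : ℝ) ≤ S.card := by exact_mod_cast h1
  have h2' : (S.card : ℝ) ≤ 200 * s := by exact_mod_cast h2
  have hs' : (0 : ℝ) < s := by exact_mod_cast hs
  have g1 : s ≤ G.card := by
    have : (s : ℝ) ≤ G.card := by nlinarith [mul_nonneg l0.le t0]
    exact_mod_cast this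
  obtain ⟨U, hU, hUc⟩ := exists_subset_card_eq g1
  have hU' : ∀ i ∈ U, 1 / 400 ≤ pr τ Y K S x i * (1 - pr τ Y K S x i) := fun i hi =>
    (mem_filter.1 (hU hi)).2
  have hnc : ∀ i ∈ U, ¬ ∀ y ∈ fib (key τ K S) Y x, y i = x i := by
    intro i hi hc
    have := hU' i hi
    rw [pr_of_const hx hc] at this
    cases hxi : x i <;> norm_num [hxi, bt] at this
  have t1 : cav (key τ K S) Y (tc τ Y K S) x < 1 / 400 * s / 2 := by
    have a1 : 1 / (200 * η ^ 2) * cav (key τ K S) Y (tc τ Y K S) x ≤ 50 * s := by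
      have : (0 : ℝ) ≤ S.card := Nat.cast_nonneg _
      linarith
    rw [div_mul_eq_mul_div, one_mul, div_le_iff₀ (by positivity)] at a1
    have a2 : η ^ 2 ≤ (1 / 10 ^ 4) ^ 2 := pow_le_pow_left₀ hη.le hη1 2
    nlinarith
  obtain ⟨P, hP, f1, f2⟩ := exists_free (fib (key τ K S) Y x) (pr τ Y K S x) (pr_nonneg _)
    (pr_le_one _) (fun y hy => mu_pr_pos hx hy) U (b := 1 / 400) (by norm_num) hU' (by
      rw [kl_fib, hUc, mul_comm, ← div_lt_iff₀ c0]; exact t1)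
  refine ⟨U, P, hUc, fun i hi => ?_, fun i hi => ?_, fun y hy => hY (mem_fib.1 (hP hy)).1,
    ⟨f1, f2⟩, fun y hy i => ?_⟩
  · by_contra hA
    exact hnc i hi fun y hy => hfix y (hY (mem_fib.1 hy).1) x (hY hx) i hA
  · exact mem_compl.2 fun hK => hnc i hi fun y hy =>
      (key_eq.1 (mem_fib.1 hy).2 i).2.2 (Or.inl hK)
  · rw [mem_compl, mem_compl, (key_eq.1 (mem_fib.1 (hP hy)).2 i).1]

theorem extract {K : Finset κ} (hY : Y ⊆ X) (hne : Y.Nonempty)
    (hfix : ∀ x ∈ X, ∀ x' ∈ X, ∀ i ∉ A, x i = x' i) {s j : ℕ} {η : ℝ} (hs : 0 < s)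
    (h1 : 100 * s ≤ j) (h2 : j ≤ 200 * s) (hj : j ≤ Fintype.card ι) (hη : 0 < η)
    (hη1 : η ≤ 1 / 10 ^ 4)
    (hW : 1 / 100 * (j * (Fintype.card ι).choose j * Y.card : ℝ) ≤
      ∑ S ∈ powersetCard j (univ : Finset ι), ∑ x ∈ Y, vr τ Y K S x)
    (hT : ∑ S ∈ powersetCard j (univ : Finset ι), ∑ x ∈ Y, tc τ Y K S x ≤
      η ^ 2 * (j * (Fintype.card ι).choose j * Y.card : ℝ)) :
    ∃ x ∈ Y, Good τ A X s x Kᶜ := by
  have hne' : (powersetCard j (univ : Finset ι)).Nonempty := powersetCard_nonempty.2 hj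
  have h3 : ∑ S ∈ powersetCard j (univ : Finset ι), ∑ x ∈ Y, (j : ℝ) / 200 ≤
      ∑ S ∈ powersetCard j (univ : Finset ι), ∑ x ∈ Y,
        (vr τ Y K S x - 1 / (200 * η ^ 2) * cav (key τ K S) Y (tc τ Y K S) x) := by
    simp only [sum_sub_distrib, ← mul_sum, sum_cav, sum_const, nsmul_eq_mul, card_powersetCard,
      card_univ]
    have l0 : 0 < 1 / (200 * η ^ 2) := by positivity
    have a := mul_le_mul_of_nonneg_left hT l0.le
    have b : 1 / (200 * η ^ 2) * (η ^ 2 * (j * (Fintype.card ι).choose j * Y.card : ℝ)) =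
        1 / 200 * (j * (Fintype.card ι).choose j * Y.card : ℝ) := by field_simp
    linarith
  obtain ⟨S, hS, h4⟩ := exists_le_of_sum_le hne' h3
  obtain ⟨x, hx, h5⟩ := exists_le_of_sum_le hne h4
  have hc := (mem_powersetCard.1 hS).2
  exact ⟨x, hx, extract_one hY hfix hs (hc ▸ h1) (hc ▸ h2) hη hη1 hx (hc ▸ h5)⟩

theorem step {f : (ι → Bool) → Prop} {m : ℕ} (hX : Seg f A m X τ) (hY : Y ⊆ X)
    (hne : Y.Nonempty) (hκ : Fintype.card κ = 1000) (hm : 1000 * m ≤ 2 * Fintype.card ι)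
    {b Λ : ℕ} (hb : 1 ≤ b) (hΛ : 1 ≤ Λ) (hn : 100 * b * 2 ^ Λ ≤ Fintype.card ι)
    (hδ : 4 * (Fintype.card (Finset κ) * Real.log 2 / Λ) ≤ (1 / 10 ^ 6) ^ 2)
    (hbig : Fintype.card ι * Real.log 2 - Real.log Y.card ≤ (1 / 10 ^ 6) ^ 2 * (100 * b)) :
    ∃ l < Λ, ∃ K : Finset κ, (∃ x ∈ Y, Good τ A X (b * 2 ^ l) x Kᶜ) ∧
      ∃ x ∈ Y, Good τ A X (b * 2 ^ l) x K := by
  obtain ⟨η, hη⟩ : ∃ η : ℝ, η = 1 / 10 ^ 6 := ⟨_, rfl⟩
  have η0 : 0 < η := by rw [hη]; norm_num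
  have η1 : η ≤ 1 := by rw [hη]; norm_num
  rw [← hη] at hδ hbig
  obtain ⟨l, hl, j, j1, j2, hT⟩ := window (fun K S => en τ Y K S) (B := Y.card * Real.log 2)
    (fun _ _ => en_nonneg) (fun _ _ => en_le) (fun K S => by rw [← tc_eq]; exact tc_nonneg) (b := 100 * b)
    (by omega) hΛ hn
  have jn : j ≤ Fintype.card ι := by
    have : 2 ^ (l + 1) ≤ 2 ^ Λ := Nat.pow_le_pow_right (by norm_num) hl
    calc j ≤ 100 * b * 2 ^ (l + 1) := by rw [pow_succ]; linarith
      _ ≤ 100 * b * 2 ^ Λ := Nat.mul_le_mul_left _ this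
      _ ≤ _ := hn
  have jb : 100 * b ≤ j := le_trans (Nat.le_mul_of_pos_right _ (by positivity)) j1.le
  have j0 : (0 : ℝ) < j := by exact_mod_cast (by omega : 0 < j)
  have n0 : (0 : ℝ) < Fintype.card ι := by exact_mod_cast (by omega : 0 < Fintype.card ι)
  have C0 : (0 : ℝ) < (Fintype.card ι).choose j := by exact_mod_cast Nat.choose_pos jn
  have Y0 : (0 : ℝ) < Y.card := by exact_mod_cast hne.card_pos
  obtain ⟨N, hN⟩ : ∃ N : ℝ, N = j * (Fintype.card ι).choose j * Y.card := ⟨_, rfl⟩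
  have N0 : 0 < N := by rw [hN]; positivity
  have hT' : ∀ K, ∑ S ∈ powersetCard j (univ : Finset ι), ∑ x ∈ Y, tc τ Y K S x ≤ η ^ 2 * N := by
    intro K
    simp_rw [tc_eq]
    refine (hT K).trans (le_of_eq_of_le ?_ (mul_le_mul_of_nonneg_right hδ N0.le))
    rw [hN]; ring
  let W : Finset κ → ℝ := fun K => ∑ S ∈ powersetCard j (univ : Finset ι), ∑ x ∈ Y, vr τ Y K S x
  let R : Finset κ → κ → ℝ := fun K k => ∑ S ∈ powersetCard j (univ : Finset ι), ∑ x ∈ Y,
    ∑ i ∈ S, (if τ x i = k then (bt (x i) - pr τ Y K S x i) ^ 2 +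
        pr τ Y K S x i * (1 - pr τ Y K S x i) else 0)
  have d1 : ∀ K k, W K - W (insert k K) ≤ R K k + 3 * η * N := by
    intro K k
    have a1 := sum_le_sum (s := powersetCard j (univ : Finset ι)) fun S _ =>
      drop_le (τ := τ) (K := K) (S := S) (Y := Y) (k := k)
        (fun x hx x' hx' => hX.det x (hY hx) x' (hY hx') k) η0 η1
    rw [sum_sub_distrib, sum_add_distrib, sum_add_distrib, ← sum_div] at a1
    have a2 : ∑ S ∈ powersetCard j (univ : Finset ι), 2 * η * S.card * Y.card = 2 * η * N := by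
      rw [sum_congr rfl fun S hS => by rw [(mem_powersetCard.1 hS).2], sum_const, nsmul_eq_mul,
        card_powersetCard, card_univ, hN]
      ring
    have a3 := div_le_div_of_nonneg_right (hT' K) η0.le
    have a4 : η ^ 2 * N / η = η * N := by field_simp
    simp only [W, R]
    linarith
  have d0 : ∀ K k, 0 ≤ W K - W (insert k K) := by
    intro K k
    simp only [W]
    rw [← sum_sub_distrib]
    refine sum_nonneg fun S _ => ?_
    rw [drop_eq (subset_insert _ _)]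
    exact sum_nonneg fun _ _ => sum_nonneg fun _ _ => sq_nonneg _
  have d2 : ∀ K k, R K k ≤ 1 / 500 * N := by
    intro K k
    have a1 : R K k ≤ ∑ x ∈ Y, ∑ S ∈ powersetCard j (univ : Finset ι),
        ((S ∩ univ.filter fun i => τ x i = k).card : ℝ) := by
      simp only [R]
      rw [sum_comm]
      refine sum_le_sum fun x _ => sum_le_sum fun S _ => ?_
      rw [inter_filter, inter_univ, card_filter]
      push_cast
      refine sum_le_sum fun i _ => ?_
      have := pr_nonneg (τ := τ) (Y := Y) (K := K) (S := S) x i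
      have := pr_le_one (τ := τ) (Y := Y) (K := K) (S := S) x i
      split_ifs
      · cases x i <;> simp only [bt] <;> norm_num <;> nlinarith
      · rfl
    refine a1.trans ?_
    have a2 : ∀ x ∈ Y, ∑ S ∈ powersetCard j (univ : Finset ι),
        ((S ∩ univ.filter fun i => τ x i = k).card : ℝ) ≤
        1 / 500 * (j * (Fintype.card ι).choose j) := by
      intro x hx
      have b1 := sum_card_inter j (univ.filter fun i => τ x i = k)
      have b2 : (1000 * ((univ.filter fun i => τ x i = k).card : ℝ)) ≤ 2 * Fintype.card ι := by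
        have := hX.short x (hY hx) k
        exact_mod_cast (by omega : 1000 * (univ.filter fun i => τ x i = k).card ≤ _)
      refine le_of_mul_le_mul_left ?_ n0
      rw [b1]
      nlinarith [mul_pos j0 C0]
    calc _ ≤ _ := sum_le_sum a2
      _ = _ := by rw [sum_const, nsmul_eq_mul, hN]; ring
  have d3 : ∀ K, ∑ k ∈ Kᶜ, R K k ≤ 2 * W K := by
    intro K
    simp only [R, W]
    rw [sum_comm, mul_sum]
    refine sum_le_sum fun S _ => ?_
    rw [two_mul]
    nth_rewrite 1 [← sq_eq]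
    rw [← sum_add_distrib, sum_comm]
    refine sum_le_sum fun x _ => ?_
    rw [vr, ← sum_add_distrib, sum_comm]
    refine sum_le_sum fun i _ => ?_
    rw [sum_ite_eq]
    split_ifs
    · rfl
    · exact add_nonneg (sq_nonneg _) (mul_nonneg (pr_nonneg _ _) (sub_nonneg.2 (pr_le_one _ _)))
  have d4 : (1 / 4 - 3 * η) * N ≤ W ∅ := by
    have a1 : ∀ S ∈ powersetCard j (univ : Finset ι),
        (1 / 4 - 3 * η) * (j * Y.card) ≤ ∑ x ∈ Y, vr τ Y ∅ S x := by
      intro S hS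
      refine le_trans ?_ (start_le η0 η1)
      rw [(mem_powersetCard.1 hS).2]
      have b1 : (100 * b : ℝ) ≤ j := by exact_mod_cast jb
      have b2 : Y.card * (Fintype.card ι * Real.log 2 - Real.log Y.card) / η ≤
          Y.card * (η * j) := by
        rw [mul_div_assoc]
        refine mul_le_mul_of_nonneg_left ?_ Y0.le
        rw [div_le_iff₀ η0]
        nlinarith [mul_le_mul_of_nonneg_left b1 (sq_nonneg η)]
      nlinarith
    calc _ = _ := by rw [sum_const, nsmul_eq_mul, card_powersetCard, card_univ, hN]; ring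
      _ ≤ _ := sum_le_sum a1
  obtain ⟨K, k1, k2⟩ := two_sided (by omega) (fun K => W K / N) (w0 := 1 / 4 - 3 * η)
    (E := 3000 * η) (L := 1 / 500 + 3 * η) (c := 1 / 100) (by positivity)
    (fun K => div_nonneg (sum_nonneg fun _ _ => sum_nonneg fun _ _ => vr_nonneg _) N0.le)
    (fun K k => by
      rw [← sub_div, abs_of_nonneg (div_nonneg (d0 K k) N0.le), div_le_iff₀ N0]
      linarith [d1 K k, d2 K k])
    (fun K => by
      simp_rw [← sub_div]
      rw [← sum_div, div_le_iff₀ N0, add_mul, mul_assoc 2, div_mul_cancel₀ _ N0.ne']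
      have a1 := sum_le_sum (s := Kᶜ) fun k _ => d1 K k
      rw [sum_add_distrib, sum_const, nsmul_eq_mul] at a1
      have a2 : ((Kᶜ).card : ℝ) ≤ 1000 := by exact_mod_cast hκ ▸ card_le_univ _
      nlinarith [d3 K, mul_pos η0 N0])
    (by rw [le_div_iff₀ N0]; exact d4) (by rw [hη]; norm_num) (by rw [hη, hκ]; norm_num)
  rw [le_div_iff₀ N0] at k1 k2
  have s0 : 0 < b * 2 ^ l := by positivity
  have η4 : η ≤ 1 / 10 ^ 4 := by rw [hη]; norm_num
  refine ⟨l, hl, K, extract hY hne hX.fixed s0 (by linarith) (by linarith) jn η0 η4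
    (hN ▸ k1) (hN ▸ hT' K), ?_⟩
  have := extract (K := Kᶜ) hY hne hX.fixed s0 (by linarith) (by linarith) jn η0 η4
    (hN ▸ k2) (hN ▸ hT' Kᶜ)
  rwa [compl_compl] at this

theorem not_good {f : (ι → Bool) → Prop} {m : ℕ} (hf : NoRect f A) (hX : Seg f A m X τ) {s : ℕ}
    {x : ι → Bool} {K : Finset κ} (h1 : Good τ A X s x K) (h2 : Good τ A X s x Kᶜ) : False := by
  obtain ⟨U₁, P₁, a1, a2, a3, a4, a5, a6⟩ := h1
  obtain ⟨U₂, P₂, b1, b2, b3, b4, b5, b6⟩ := h2
  refine hf (univ.filter fun i => τ x i ∈ K) U₁ U₂ P₁ P₂ a2 b2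
    (fun i hi => by simpa using a3 i hi) (disjoint_left.2 fun i hi => by simpa using b3 i hi)
    (a1.trans b1.symm) a5 b5 fun y₁ h₁ y₂ h₂ => ?_
  have := hX.mix y₁ (a4 h₁) y₂ (b4 h₂) K fun i => by
    rw [a6 y₁ h₁ i, ← not_iff_not, ← mem_compl, ← mem_compl, b6 y₂ h₂ i]
  simpa [a6 y₁ h₁] using this

theorem core_aux (hκ : Fintype.card κ = 1000) : ∃ (ε : ℝ) (n₀ : ℕ), 0 < ε ∧ ∀ n ≥ n₀,
    ∀ (f : (Fin n → Bool) → Prop) (A : Finset (Fin n)) (m : ℕ) (X : Finset (Fin n → Bool))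
      (τ : (Fin n → Bool) → Fin n → κ), NoRect f A → Seg f A m X τ → 1000 * m ≤ 2 * n →
      (X.card : ℝ) ≤ 2 ^ ((1 - ε) * n) := by
  classical
  obtain ⟨g, hg⟩ : ∃ g, g = Fintype.card (Finset κ) := ⟨_, rfl⟩
  obtain ⟨Λ, hΛ⟩ := exists_nat_gt (4 * (g * Real.log 2) * 10 ^ 12)
  have l2 : 0 < Real.log 2 := Real.log_pos one_lt_two
  have l3 : Real.log 2 ≤ 1 := by linarith [Real.log_two_lt_d9]
  have Λ0 : (0 : ℝ) < Λ := lt_of_le_of_lt (by positivity) hΛ
  have Λ1 : 1 ≤ Λ := by exact_mod_cast Λ0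
  obtain ⟨ε, hε⟩ : ∃ ε : ℝ, ε = 1 / (4 * 10 ^ 12 * 2 ^ Λ) := ⟨_, rfl⟩
  have ε0 : 0 < ε := by rw [hε]; positivity
  obtain ⟨n₁, hn₁⟩ := exists_nat_ge (Λ * g / ε)
  refine ⟨ε, n₁ + 100 * 2 ^ Λ, ε0, fun n hn f A m X τ hf hX hm => ?_⟩
  by_contra hcon
  push Not at hcon
  have X0 : (0 : ℝ) < X.card := lt_trans (by positivity) hcon
  let c : (Fin n → Bool) → Fin Λ × Finset κ → Bool := fun x q =>
    decide (Good τ A X (n / (100 * 2 ^ Λ) * 2 ^ (q.1 : ℕ)) x q.2)
  have hc : Fintype.card (Fin Λ × Finset κ → Bool) = 2 ^ (Λ * g) := by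
    rw [Fintype.card_fun, Fintype.card_prod, Fintype.card_bool, Fintype.card_fin, hg]
  obtain ⟨v, -, hv⟩ := exists_le_card_fiber_of_nsmul_le_card_of_maps_to (s := X)
    (t := (univ : Finset (Fin Λ × Finset κ → Bool))) (f := c) (b := (X.card : ℝ) / 2 ^ (Λ * g))
    (fun _ _ => mem_univ _) univ_nonempty (by
      rw [card_univ, hc, nsmul_eq_mul]; push_cast; rw [mul_div_cancel₀ _ (by positivity)])
  set Y := X.filter fun x => c x = v with hYdef
  have Y0 : (0 : ℝ) < Y.card := lt_of_lt_of_le (by positivity) hv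
  have p0 : 0 < 100 * 2 ^ Λ := by positivity
  have b1 : 1 ≤ n / (100 * 2 ^ Λ) := (Nat.le_div_iff_mul_le p0).2 (by omega)
  have b2 : n / (100 * 2 ^ Λ) * (100 * 2 ^ Λ) ≤ n := Nat.div_mul_le_self _ _
  have b3 : n < (n / (100 * 2 ^ Λ) + 1) * (100 * 2 ^ Λ) := by
    rw [mul_comm]; exact Nat.lt_mul_div_succ _ p0
  obtain ⟨l, hl, K, ⟨x, hx, g1⟩, x', hx', g2⟩ := step (Y := Y) hX (filter_subset _ _)
    (card_pos.1 (by exact_mod_cast Y0)) hκ (by simpa using hm) b1 Λ1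
    (by rw [Fintype.card_fin]; linarith) (by
      rw [← hg, ← mul_div_assoc, div_le_iff₀ Λ0]; linarith) (by
      rw [Fintype.card_fin]
      have a1 := Real.log_le_log (by positivity) hv
      rw [Real.log_div X0.ne' (by positivity), Real.log_pow] at a1
      have a2 := Real.log_le_log (by positivity) hcon.le
      rw [Real.log_rpow two_pos] at a2
      have a3 : (Λ * g : ℝ) ≤ ε * n := by
        rw [div_le_iff₀ ε0] at hn₁
        have : (n₁ : ℝ) ≤ n := by exact_mod_cast (by omega : n₁ ≤ n)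
        nlinarith
      have a4 : (n : ℝ) ≤ 2 * (n / (100 * 2 ^ Λ) : ℕ) * (100 * 2 ^ Λ) := by
        have : n ≤ 2 * (n / (100 * 2 ^ Λ)) * (100 * 2 ^ Λ) := by nlinarith
        exact_mod_cast this
      have a5 : 2 * (ε * n) ≤ (1 / 10 ^ 6) ^ 2 * (100 * (n / (100 * 2 ^ Λ) : ℕ)) := by
        refine (mul_le_mul_of_nonneg_left (mul_le_mul_of_nonneg_left a4 ε0.le) zero_le_two).trans
          (le_of_eq ?_)
        rw [hε]; field_simp; norm_num
      push_cast at a1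
      have a6 : 0 ≤ ε * n := by positivity
      nlinarith)
  have e := congrFun ((mem_filter.1 hx).2.trans (mem_filter.1 hx').2.symm) (⟨l, hl⟩, K)
  simp only [c, decide_eq_decide] at e
  exact not_good hf hX (e.2 g2) g1

theorem core : ∃ (r : ℕ) (ε : ℝ) (n₀ : ℕ), 0 < r ∧ 0 < ε ∧ ∀ n ≥ n₀,
    ∀ (f : (Fin n → Bool) → Prop) (A : Finset (Fin n)) (m : ℕ) (X : Finset (Fin n → Bool))
      (τ : (Fin n → Bool) → Fin n → Fin r), NoRect f A → Seg f A m X τ → r * m ≤ 2 * n →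
      (X.card : ℝ) ≤ 2 ^ ((1 - ε) * n) := by
  obtain ⟨ε, n₀, h0, h⟩ := core_aux (κ := Fin 1000) (Fintype.card_fin _)
  exact ⟨1000, ε, n₀, by norm_num, h0, h⟩

end Pool.Agent.Lib.MP_79d702_lc.NBP
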