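import Pool.Agent.Lib.MP_79d702_lc.NBP.Hide

/-!
Views of a set of segments, the variance left by a view and its total correlation.
-/

namespace Pool.Agent.Lib.MP_79d702_lc.NBP

open Finset

variable {ι κ : Type*} [Fintype ι] [DecidableEq ι] [DecidableEq κ]

/-- what the segments in `K` read, together with the values off `S` -/
def key (τ : (ι → Bool) → ι → κ) (K : Finset κ) (S : Finset ι) (x : ι → Bool) :
    ι → Option κ × Option Bool := fun i =>
  (if τ x i ∈ K then some (τ x i) else none, if τ x i ∈ K ∨ i ∉ S then some (x i) else none)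

variable {τ : (ι → Bool) → ι → κ} {K : Finset κ} {S : Finset ι} {Y : Finset (ι → Bool)}

omit [Fintype ι] in
theorem key_eq {x y : ι → Bool} : key τ K S y = key τ K S x ↔ ∀ i, (τ y i ∈ K ↔ τ x i ∈ K) ∧
    (τ x i ∈ K → τ y i = τ x i) ∧ (τ x i ∈ K ∨ i ∉ S → y i = x i) := by
  simp only [key, funext_iff, Prod.mk.injEq]
  refine forall_congr' fun i => ?_
  by_cases h1 : τ y i ∈ K <;> by_cases h2 : τ x i ∈ K <;> by_cases h3 : i ∈ S <;> simp [h1, h2, h3]

omit [Fintype ι] in
theorem key_mono {K' : Finset κ} (h : K ⊆ K') {x y : ι → Bool}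
    (e : key τ K' S x = key τ K' S y) : key τ K S x = key τ K S y := by
  rw [key_eq] at e ⊢
  intro i
  obtain ⟨e1, e2, e3⟩ := e i
  refine ⟨⟨fun a => ?_, fun a => ?_⟩, fun a => e2 (h a), fun a => e3 (a.imp_left fun b => h b)⟩
  · rw [← e2 (e1.1 (h a))]; exact a
  · rw [e2 (h a)]; exact a

/-- conditional probability of the bit `i` given the view -/
noncomputable def pr (τ : (ι → Bool) → ι → κ) (Y : Finset (ι → Bool)) (K : Finset κ)
    (S : Finset ι) (x : ι → Bool) (i : ι) : ℝ :=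
  cav (key τ K S) Y (fun z => bt (z i)) x

/-- variance left on `S` -/
noncomputable def vr (τ : (ι → Bool) → ι → κ) (Y : Finset (ι → Bool)) (K : Finset κ)
    (S : Finset ι) (x : ι → Bool) : ℝ :=
  ∑ i ∈ S, pr τ Y K S x i * (1 - pr τ Y K S x i)

/-- entropy left on `S` -/
noncomputable def en (τ : (ι → Bool) → ι → κ) (Y : Finset (ι → Bool)) (K : Finset κ)
    (S : Finset ι) : ℝ :=
  ∑ x ∈ Y, Real.log (fib (key τ K S) Y x).card

/-- pointwise total correlation -/
noncomputable def tc (τ : (ι → Bool) → ι → κ) (Y : Finset (ι → Bool)) (K : Finset κ)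
    (S : Finset ι) (x : ι → Bool) : ℝ :=
  -Real.log (fib (key τ K S) Y x).card - ∑ i, Real.log (mu (pr τ Y K S x i) (x i))

theorem pr_nonneg (x : ι → Bool) (i : ι) : 0 ≤ pr τ Y K S x i :=
  cav_nonneg (fun _ => bt_nonneg _) _

theorem pr_le_one (x : ι → Bool) (i : ι) : pr τ Y K S x i ≤ 1 :=
  cav_le_one (fun _ => bt_le_one _) _

theorem pr_congr {x y : ι → Bool} (h : key τ K S x = key τ K S y) :
    pr τ Y K S x = pr τ Y K S y := funext fun _ => cav_congr _ h

theorem pr_of_const {x : ι → Bool} (hx : x ∈ Y) {i : ι}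
    (h : ∀ y ∈ fib (key τ K S) Y x, y i = x i) : pr τ Y K S x i = bt (x i) := by
  have := card_fib_pos (c := key τ K S) hx
  rw [pr, cav, sum_congr rfl fun y hy => by rw [h y hy], sum_const, nsmul_eq_mul]
  field_simp

theorem mu_pr {x : ι → Bool} (hx : x ∈ Y) (i : ι) (b : Bool) :
    mu (pr τ Y K S x i) b * (fib (key τ K S) Y x).card =
      ((fib (key τ K S) Y x).filter fun y => y i = b).card := by
  have h0 := card_fib_pos (c := key τ K S) hx
  have h1 : ∑ y ∈ fib (key τ K S) Y x, bt (y i) =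
      ((fib (key τ K S) Y x).filter fun y => y i = true).card := by
    rw [card_filter]; push_cast
    exact sum_congr rfl fun y _ => by simp [bt]
  have h2 := card_filter_add_card_filter_not (s := fib (key τ K S) Y x) fun y => y i = true
  have h3 : (((fib (key τ K S) Y x).filter fun y => y i = true).card : ℝ) +
      ((fib (key τ K S) Y x).filter fun y => y i = false).card =
      (fib (key τ K S) Y x).card := by
    rw [← h2]; push_cast; simp
  cases b
  · simp only [mu, pr, cav, h1]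
    rw [if_neg (by simp), sub_mul, div_mul_cancel₀ _ h0.ne']
    linarith
  · simp only [mu, pr, cav, h1, if_true]
    rw [div_mul_cancel₀ _ h0.ne']

theorem mu_pr_pos {x y : ι → Bool} (hx : x ∈ Y) (hy : y ∈ fib (key τ K S) Y x) (i : ι) :
    0 < mu (pr τ Y K S x i) (y i) := by
  have h0 := card_fib_pos (c := key τ K S) hx
  have h1 := mu_pr (τ := τ) (K := K) (S := S) hx i (y i)
  have h2 : (0 : ℝ) < ((fib (key τ K S) Y x).filter fun z => z i = y i).card := by
    have : ((fib (key τ K S) Y x).filter fun z => z i = y i).Nonempty :=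
      ⟨y, mem_filter.2 ⟨hy, rfl⟩⟩
    exact_mod_cast this.card_pos
  rw [← h1] at h2
  exact (mul_pos_iff_of_pos_right h0).1 h2

theorem kl_fib (x : ι → Bool) :
    kl (fib (key τ K S) Y x) (pr τ Y K S x) = ∑ y ∈ fib (key τ K S) Y x, tc τ Y K S y := by
  refine sum_congr rfl fun y hy => ?_
  have h := (mem_fib.1 hy).2
  rw [tc, fib_congr h, pr_congr h]

theorem cav_tc_nonneg {x : ι → Bool} (hx : x ∈ Y) :
    0 ≤ ∑ y ∈ fib (key τ K S) Y x, tc τ Y K S y := by
  rw [← kl_fib]
  exact kl_nonneg _ _ (pr_nonneg _) (pr_le_one _) fun y hy => mu_pr_pos hx hy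

theorem tc_nonneg : 0 ≤ ∑ x ∈ Y, tc τ Y K S x := by
  have := sum_le_of_fib (c := key τ K S) (Y := Y) (f := fun _ => 0) (g := tc τ Y K S)
    fun x hx => by simpa using cav_tc_nonneg hx
  simpa using this

theorem fib_erase (x : ι → Bool) (i : ι) :
    fib (key τ K (S.erase i)) Y x = (fib (key τ K S) Y x).filter fun y => y i = x i := by
  ext y
  simp only [mem_filter, mem_fib, key_eq, mem_erase, and_assoc]
  refine and_congr_right fun _ => ⟨fun h => ⟨fun j => ⟨(h j).1, (h j).2.1, fun a => (h j).2.2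
    (a.imp_right fun b c => b c.2)⟩, (h i).2.2 (Or.inr fun c => c.1 rfl)⟩, fun h j =>
      ⟨(h.1 j).1, (h.1 j).2.1, fun a => ?_⟩⟩
  by_cases e : j = i
  · subst e; exact h.2
  · exact (h.1 j).2.2 (a.imp_right fun b c => b ⟨e, c⟩)

theorem tc_eq : ∑ x ∈ Y, tc τ Y K S x =
    ∑ i ∈ S, (en τ Y K S - en τ Y K (S.erase i)) - en τ Y K S := by
  simp only [en]
  simp_rw [← sum_sub_distrib]
  rw [sum_comm, ← sum_sub_distrib]
  refine sum_congr rfl fun x hx => ?_
  have h0 := card_fib_pos (c := key τ K S) hx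
  have h1 : ∀ i, Real.log (mu (pr τ Y K S x i) (x i)) =
      Real.log (fib (key τ K (S.erase i)) Y x).card - Real.log (fib (key τ K S) Y x).card := by
    intro i
    rw [fib_erase, ← mu_pr hx, Real.log_mul (mu_pr_pos hx (mem_fib.2 ⟨hx, rfl⟩) i).ne' h0.ne']
    ring
  rw [tc, sum_congr rfl fun i _ => h1 i, ← sum_subset (subset_univ S) fun i _ hi => by
    rw [erase_eq_of_notMem hi, sub_self]]
  simp_rw [sum_sub_distrib]
  ring

theorem en_nonneg : 0 ≤ en τ Y K S := sum_nonneg fun _ _ => Real.log_natCast_nonneg _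

theorem en_le : en τ Y K S ≤ Y.card * Real.log 2 * S.card := by
  have : ∀ x ∈ Y, Real.log (fib (key τ K S) Y x).card ≤ Real.log 2 * S.card := by
    intro x hx
    have h1 : (fib (key τ K S) Y x).card ≤ 2 ^ S.card := by
      rw [← card_powerset]
      refine card_le_card_of_injOn (fun y => S.filter fun i => y i = true)
        (fun y _ => mem_coe.2 (mem_powerset.2 (filter_subset _ _))) fun y hy z hz e => ?_
      funext i
      by_cases hi : i ∈ S
      · have := congrArg (fun T => i ∈ T) e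
        simp only [mem_filter, hi, true_and, eq_iff_iff] at this
        exact Bool.eq_iff_iff.2 this
      · rw [(key_eq.1 (mem_fib.1 hy).2 i).2.2 (Or.inr hi),
          (key_eq.1 (mem_fib.1 hz).2 i).2.2 (Or.inr hi)]
    calc _ ≤ Real.log ((2 : ℝ) ^ S.card) :=
          Real.log_le_log (card_fib_pos hx) (by exact_mod_cast h1)
      _ = _ := by rw [Real.log_pow]; ring
  calc _ ≤ ∑ x ∈ Y, Real.log 2 * S.card := sum_le_sum this
    _ = _ := by rw [sum_const, nsmul_eq_mul]; ring

theorem vr_nonneg (x : ι → Bool) : 0 ≤ vr τ Y K S x :=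
  sum_nonneg fun _ _ => mul_nonneg (pr_nonneg _ _) (sub_nonneg.2 (pr_le_one _ _))

theorem sum_pr_mul {K' : Finset κ} (h : K ⊆ K') (i : ι) :
    ∑ x ∈ Y, pr τ Y K S x i * pr τ Y K' S x i = ∑ x ∈ Y, pr τ Y K S x i * bt (x i) :=
  sum_mul_cav (c := key τ K' S) (fun x => pr τ Y K S x i) (fun z => bt (z i))
    fun x y e => by rw [pr_congr (key_mono h e)]

theorem sum_pr (i : ι) : ∑ x ∈ Y, pr τ Y K S x i = ∑ x ∈ Y, bt (x i) := sum_cav _

theorem drop_eq {K' : Finset κ} (h : K ⊆ K') :
    ∑ x ∈ Y, vr τ Y K S x - ∑ x ∈ Y, vr τ Y K' S x =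
      ∑ x ∈ Y, ∑ i ∈ S, (pr τ Y K' S x i - pr τ Y K S x i) ^ 2 := by
  simp only [vr]
  rw [sum_comm, sum_comm (s := Y), sum_comm (s := Y), ← sum_sub_distrib]
  refine sum_congr rfl fun i _ => ?_
  have a1 := sum_pr_mul (τ := τ) (Y := Y) (S := S) h i
  have a2 := sum_pr_mul (τ := τ) (Y := Y) (S := S) (Subset.refl K) i
  have a3 := sum_pr (τ := τ) (Y := Y) (S := S) (K := K) i
  have a4 := sum_pr (τ := τ) (Y := Y) (S := S) (K := K') i
  simp only [mul_sub, mul_one, sub_sq, sum_sub_distrib, sum_add_distrib, mul_assoc, ← mul_sum]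
  simp only [sq]
  simp only [mul_comm (pr τ Y K' S _ i) (pr τ Y K S _ i)]
  linarith

theorem sq_eq : ∑ x ∈ Y, ∑ i ∈ S, (bt (x i) - pr τ Y K S x i) ^ 2 = ∑ x ∈ Y, vr τ Y K S x := by
  simp only [vr]
  rw [sum_comm, sum_comm (s := Y)]
  refine sum_congr rfl fun i _ => ?_
  have a2 := sum_pr_mul (τ := τ) (Y := Y) (S := S) (Subset.refl K) i
  have a3 := sum_pr (τ := τ) (Y := Y) (S := S) (K := K) i
  have a5 : ∀ b, bt b ^ 2 = bt b := fun b => by cases b <;> simp [bt]
  simp only [mul_sub, mul_one, sub_sq, sum_sub_distrib, sum_add_distrib, mul_assoc, ← mul_sum, a5]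
  simp only [sq]
  simp only [mul_comm (bt _) (pr τ Y K S _ i)]
  linarith

theorem drop_le {k : κ} (hdet : ∀ x ∈ Y, ∀ x' ∈ Y, (∀ i, τ x i = k ∨ τ x' i = k → x i = x' i) →
    ∀ i, τ x i = k ↔ τ x' i = k) {η : ℝ} (hη : 0 < η) (hη1 : η ≤ 1) :
    ∑ x ∈ Y, vr τ Y K S x - ∑ x ∈ Y, vr τ Y (insert k K) S x ≤
      ∑ x ∈ Y, ∑ i ∈ S, (if τ x i = k then (bt (x i) - pr τ Y K S x i) ^ 2 +
        pr τ Y K S x i * (1 - pr τ Y K S x i) else 0) +
      (2 * η * S.card * Y.card + (∑ x ∈ Y, tc τ Y K S x) / η) := by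
  have hsub : K ⊆ insert k K := subset_insert _ _
  have h1 : ∑ y ∈ Y, η * ∑ i ∈ S, (if τ y i = k then -(pr τ Y K S y i * (1 - pr τ Y K S y i))
      else (pr τ Y (insert k K) S y i - pr τ Y K S y i) ^ 2) ≤
      ∑ y ∈ Y, (2 * η ^ 2 * S.card + tc τ Y K S y) := by
    refine sum_le_of_fib (c := key τ K S) fun x hx => ?_
    have h2 := hide (fib (key τ K S) Y x) (pr τ Y K S x) (pr_nonneg _) (pr_le_one _)
      (fun y hy => mu_pr_pos hx hy) S (key τ (insert k K) S) (fun y i => τ y i = k)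
      (fun y y' e i => by
        obtain ⟨e1, e2, _⟩ := key_eq.1 e i
        refine ⟨fun a => ?_, fun a => ?_⟩
        · rw [← e2 (e1.1 (a ▸ mem_insert_self _ _))]; exact a
        · rw [e2 (a ▸ mem_insert_self _ _)]; exact a)
      (fun y hy y' hy' e => by
        have e0 := key_eq.1 ((mem_fib.1 hy).2.trans (mem_fib.1 hy').2.symm)
        have e1 := hdet y (mem_fib.1 hy).1 y' (mem_fib.1 hy').1 fun i a => e i (Or.inr a)
        rw [key_eq]
        intro i
        simp only [mem_insert]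
        refine ⟨or_congr (e1 i) (e0 i).1, fun a => ?_, fun a => ?_⟩
        · rcases a with a | a
          · rw [a]; exact (e1 i).2 a
          · exact (e0 i).2.1 a
        · rcases a with (a | a) | a
          · exact e i (Or.inr (Or.inr a))
          · exact (e0 i).2.2 (Or.inl a)
          · exact e i (Or.inl a)) hη.le hη1
    rw [kl_fib, sum_comm] at h2
    rw [← mul_sum, sum_add_distrib, sum_const, nsmul_eq_mul]
    refine le_of_eq_of_le ?_ (h2.trans_eq (by ring))
    congr 1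
    refine sum_congr rfl fun y hy => sum_congr rfl fun i _ => ?_
    rw [pr_congr (mem_fib.1 hy).2]
    simp only [pr, cav]
    rw [fib_fib (d := key τ (insert k K) S) (fun _ _ e => key_mono hsub e) hy]
  have h3 : ∀ y ∈ Y, ∑ i ∈ S, (pr τ Y (insert k K) S y i - pr τ Y K S y i) ^ 2 =
      ∑ i ∈ S, (if τ y i = k then (bt (y i) - pr τ Y K S y i) ^ 2 +
        pr τ Y K S y i * (1 - pr τ Y K S y i) else 0) +
      ∑ i ∈ S, (if τ y i = k then -(pr τ Y K S y i * (1 - pr τ Y K S y i))
        else (pr τ Y (insert k K) S y i - pr τ Y K S y i) ^ 2) := by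
    intro y hy
    rw [← sum_add_distrib]
    refine sum_congr rfl fun i _ => ?_
    split_ifs with a
    · rw [pr_of_const hy fun z hz =>
        (key_eq.1 (mem_fib.1 hz).2 i).2.2 (Or.inl (a ▸ mem_insert_self _ _))]
      ring
    · ring
  rw [drop_eq hsub, sum_congr rfl h3, sum_add_distrib]
  rw [← mul_sum, sum_add_distrib, sum_const, nsmul_eq_mul] at h1
  refine add_le_add le_rfl (le_of_mul_le_mul_left (h1.trans_eq ?_) hη)
  field_simp

theorem start_le {η : ℝ} (hη : 0 < η) (hη1 : η ≤ 1) :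
    (1 / 4 - 2 * η) * S.card * Y.card -
      Y.card * (Fintype.card ι * Real.log 2 - Real.log Y.card) / η ≤
      ∑ x ∈ Y, vr τ Y ∅ S x := by
  have h2 := hide Y (fun _ => 1 / 2) (fun _ => by norm_num) (fun _ => by norm_num)
    (fun y _ i => by cases y i <;> norm_num [mu]) S (key τ ∅ S) (fun _ _ => False) (by simp)
    (fun y _ y' _ e => by
      rw [key_eq]
      intro i
      simpa using fun a => e i (Or.inl a)) hη.le hη1
  have h3 : kl Y (fun _ : ι => (1 / 2 : ℝ)) =
      Y.card * (Fintype.card ι * Real.log 2 - Real.log Y.card) := by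
    have : ∀ b, Real.log (mu (1 / 2) b) = -Real.log 2 := fun b => by
      rw [← Real.log_inv]; congr 1; cases b <;> norm_num [mu]
    simp only [kl, this, sum_const, nsmul_eq_mul, card_univ]
    ring
  have h4 : ∑ x ∈ Y, vr τ Y ∅ S x = 1 / 4 * S.card * Y.card -
      ∑ i ∈ S, ∑ y ∈ Y, (cav (key τ ∅ S) Y (fun z => bt (z i)) y - 1 / 2) ^ 2 := by
    simp only [vr]
    rw [sum_comm, eq_sub_iff_add_eq, ← sum_add_distrib]
    simp_rw [← sum_add_distrib]
    rw [sum_congr rfl fun i _ => sum_congr rfl fun y _ => (show _ = (1 / 4 : ℝ) by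
      simp only [pr]; ring)]
    simp only [sum_const, nsmul_eq_mul]
    ring
  simp only [if_false] at h2
  rw [h3] at h2
  rw [h4]
  have h5 := div_le_div_of_nonneg_right h2 hη.le
  rw [mul_div_cancel_left₀ _ hη.ne', add_div] at h5
  have h6 : 2 * η ^ 2 * S.card * Y.card / η = 2 * η * S.card * Y.card := by field_simp
  linarith

end Pool.Agent.Lib.MP_79d702_lc.NBP
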