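import Mathlib

/-!
Nondeterministic branching programs (switching-and-rectifier networks).
-/

namespace Pool.Agent.Lib.MP_79d702_lc.NBP

/-- A nondeterministic branching program on `n` Boolean variables: a directed graph on `size`
nodes (cycles and parallel edges allowed) with a source and a sink; an edge is unlabelled
(`none`) or tests one variable (`some (i, b)`: it can be passed when `x i = b`). -/
structure Program (n : ℕ) where
  size : ℕ
  edge : Fin size → Fin size → Option (Fin n × Bool) → Prop
  source : Fin size
  sink : Fin size

/-- `B.Walk x u w m`: a walk from `u` to `w` all of whose tests are passed by `x` and which makes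
`m` tests (counted with repetition; unlabelled edges are free). -/
inductive Program.Walk {n : ℕ} (B : Program n) (x : Fin n → Bool) :
    Fin B.size → Fin B.size → ℕ → Prop
  | nil (u : Fin B.size) : Walk B x u u 0
  | free {u v w : Fin B.size} {m : ℕ} : B.edge u v none → Walk B x v w m → Walk B x u w m
  | test {u v w : Fin B.size} {m : ℕ} (i : Fin n) :
      B.edge u v (some (i, x i)) → Walk B x v w m → Walk B x u w (m + 1)

/-- `B` decides `f` with at most `T` tests: an input with a source-to-sink walk (of any length)
is accepted by `f`, and every input accepted by `f` has such a walk with at most `T` tests. -/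
def Program.DecidesWithin {n : ℕ} (B : Program n) (f : (Fin n → Bool) → Bool) (T : ℝ) : Prop :=
  (∀ x m, B.Walk x B.source B.sink m → f x = true) ∧
    ∀ x, f x = true → ∃ m : ℕ, (m : ℝ) ≤ T ∧ B.Walk x B.source B.sink m

end Pool.Agent.Lib.MP_79d702_lc.NBP
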