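import Pool.Agent.Shared.PolyTime
import Pool.Agent.Lib.MP_79d702_lc.NBP.Defs
import Pool.Agent.Lib.MP_79d702_lc.NBP.Iface

/-!
The choice of the constants in the lower bound.
-/

namespace Pool.Agent.Lib.MP_79d702_lc.NBP

open Finset Filter Topology

theorem ev_small (C : ℝ) {d : ℝ} (hd : 0 < d) : ∀ᶠ ε in 𝓝[>] (0 : ℝ), ε * C ≤ d :=
  (((continuous_id.mul continuous_const).tendsto' 0 0 (by simp)).mono_left
    nhdsWithin_le_nhds).eventually (ge_mem_nhds hd)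

theorem ev_log {k : ℕ → ℕ} (hk : ∀ n, 2 ^ k n ≤ 16 * n + 8) {c : ℝ} (hc : 0 < c) :
    ∀ᶠ n : ℕ in atTop, (k n : ℝ) < c * n := by
  have h1 := (tendsto_pow_const_div_const_pow_of_one_lt 1
    (Real.one_lt_rpow one_lt_two hc)).eventually (gt_mem_nhds (by norm_num : (0 : ℝ) < 1 / 24))
  filter_upwards [h1, eventually_ge_atTop 1] with n h2 h3
  rw [pow_one, div_lt_iff₀ (by positivity), ← Real.rpow_mul_natCast zero_le_two] at h2
  have h4 : ((2 : ℝ) ^ (k n : ℝ)) ≤ 16 * n + 8 := by exact_mod_cast hk n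
  have h5 : (1 : ℝ) ≤ n := by exact_mod_cast h3
  exact (Real.rpow_lt_rpow_left_iff one_lt_two).1 (by linarith)

theorem final_of
    (hcore : ∃ (r : ℕ) (ε : ℝ) (n₀ : ℕ), 0 < r ∧ 0 < ε ∧ ∀ n ≥ n₀,
      ∀ (f : (Fin n → Bool) → Prop) (A : Finset (Fin n)) (m : ℕ) (X : Finset (Fin n → Bool))
        (τ : (Fin n → Bool) → Fin n → Fin r), NoRect f A → Seg f A m X τ → r * m ≤ 2 * n →
        (X.card : ℝ) ≤ 2 ^ ((1 - ε) * n))
    (hred : ∀ {n : ℕ} (B : Program n) (f : (Fin n → Bool) → Bool) (e r : ℕ), 0 < r →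
      B.DecidesWithin f ((n + e : ℕ) : ℝ) →
      (∀ x i, f x = true → f (Function.update x i (!x i)) = false) →
      ∀ (A : Finset (Fin n)) {a : ℝ}, 0 < a → a ≤ 1 →
      ∃ (X : Finset (Fin n → Bool)) (τ : (Fin n → Bool) → Fin n → Fin r),
        Seg (fun x => f x = true) A ((n + e) / r + 1 + e + Aᶜ.card) X τ ∧
        ((univ.filter fun x => f x = true).card : ℝ) ≤
          X.card * ((B.size : ℝ) ^ (r + 1) * 2 ^ Aᶜ.card * ((1 + 2 * a) ^ n / a ^ e)))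
    (lang : List Bool → Bool) (k0 : ℕ → ℕ) (lang_P : lang ∈ N68a2faeb.P)
    (lang_sens : ∀ (n : ℕ) (x : Fin n → Bool) (i : Fin n), lang (List.ofFn x) = true →
      lang (List.ofFn (Function.update x i (!x i))) = false)
    (lang_count : ∀ n, k0 n ≤ n →
      2 ^ (n - k0 n) ≤ (univ.filter fun x : Fin n → Bool => lang (List.ofFn x) = true).card)
    (k0_le : ∀ n, 2 ^ k0 n ≤ 16 * n + 8)
    (lang_norect : ∀ n, NoRect (fun x : Fin n → Bool => lang (List.ofFn x) = true)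
      (univ.filter fun i => k0 n ≤ i.val)) :
    ∃ L ∈ N68a2faeb.P, ∃ ε : ℝ, 0 < ε ∧ ∃ n₀ : ℕ, ∀ n ≥ n₀, ∀ B : Program n,
      B.DecidesWithin (fun x => L (List.ofFn x)) ((1 + ε) * n) →
        (2 : ℝ) ^ (ε * n) ≤ B.size := by
  obtain ⟨r, ε₀, n₁, hr, h0, hc⟩ := hcore
  obtain ⟨δ, rfl⟩ : ∃ δ, ε₀ = 4 * δ := ⟨ε₀ / 4, by ring⟩
  have hδ : 0 < δ := by linarith
  have r1 : (1 : ℝ) ≤ r := by exact_mod_cast hr
  obtain ⟨a, a0, a1, a2⟩ : ∃ a : ℝ, 0 < a ∧ a ≤ 1 ∧ 1 + 2 * a ≤ 2 ^ δ := by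
    have := Real.one_lt_rpow one_lt_two hδ
    exact ⟨min 1 ((2 ^ δ - 1) / 2), lt_min one_pos (by linarith), min_le_left _ _,
      by linarith [min_le_right 1 (((2 : ℝ) ^ δ - 1) / 2)]⟩
  obtain ⟨ε, e1, e2, e3, e0⟩ := ((ev_small (-Real.log a) (mul_pos (Real.log_pos one_lt_two) hδ)).and
    ((ev_small (r + 1) hδ).and ((ev_small (r + 1) (by norm_num : (0 : ℝ) < 1 / 4)).and
      self_mem_nhdsWithin))).exists
  replace e0 : 0 < ε := e0
  obtain ⟨n₀, hn⟩ := eventually_atTop.1 ((ev_log k0_le (half_pos hδ)).and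
    ((ev_log k0_le (c := 1 / (4 * r)) (by positivity)).and
      ((eventually_ge_atTop (4 * r)).and (eventually_ge_atTop n₁))))
  refine ⟨lang, lang_P, ε, e0, n₀, fun n h B hB => ?_⟩
  obtain ⟨k1, k2, k3, k4⟩ := hn n h
  have n0 : (0 : ℝ) ≤ n := n.cast_nonneg
  have he : (⌊ε * n⌋₊ : ℝ) ≤ ε * n := Nat.floor_le (by positivity)
  rw [one_div, inv_mul_eq_div, lt_div_iff₀ (by positivity)] at k2
  have k5 : k0 n * (4 * r) < n := by exact_mod_cast k2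
  have k6 : k0 n ≤ n := by nlinarith
  obtain ⟨X, τ, x1, x2⟩ := hred B _ ⌊ε * n⌋₊ r hr ⟨hB.1, fun x hx => by
      obtain ⟨m, m1, m2⟩ := hB.2 x hx
      refine ⟨m, Nat.cast_le.2 ?_, m2⟩
      rw [add_comm, ← Nat.floor_add_natCast (by positivity)]
      exact Nat.le_floor (by linarith)⟩ (lang_sens n) (univ.filter fun i => k0 n ≤ i.val) a0 a1
  have hA : (univ.filter fun i : Fin n => k0 n ≤ i.val)ᶜ.card ≤ k0 n := by
    rw [← card_range (k0 n)]
    exact card_le_card_of_injOn Fin.val (fun i hi => by simpa using hi) Fin.val_injective.injOn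
  have x3 := hc n k4 _ _ _ X τ (lang_norect n) x1 (by
    have b1 := Nat.mul_div_le (n + ⌊ε * n⌋₊) r
    have b2 : (r + 1) * ⌊ε * n⌋₊ * 4 ≤ n := by
      have : ((r : ℝ) + 1) * ⌊ε * n⌋₊ * 4 ≤ n := by nlinarith
      exact_mod_cast this
    nlinarith [Nat.mul_le_mul_left r hA])
  generalize (univ.filter fun i : Fin n => k0 n ≤ i.val)ᶜ.card = t at hA x2
  by_contra hs
  have y1 : (2 : ℝ) ^ ((n : ℝ) - k0 n) ≤ _ := le_trans (by
    rw [← Nat.cast_sub k6]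
    exact_mod_cast lang_count n k6) x2
  have y2 : (B.size : ℝ) ^ (r + 1) ≤ 2 ^ (δ * n) := by
    refine (pow_le_pow_left₀ (by positivity) (not_le.1 hs).le _).trans ?_
    rw [← Real.rpow_mul_natCast zero_le_two]
    refine Real.rpow_le_rpow_of_exponent_le one_le_two ?_
    push_cast
    nlinarith
  have y3 : (2 : ℝ) ^ t ≤ 2 ^ (k0 n : ℝ) := by exact_mod_cast Nat.pow_le_pow_right two_pos hA
  have y4 : (1 + 2 * a) ^ n ≤ 2 ^ (δ * n) := by
    rw [Real.rpow_mul_natCast zero_le_two]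
    gcongr
  have y5 : (a ^ ⌊ε * n⌋₊)⁻¹ ≤ 2 ^ (δ * n) := by
    rw [Real.rpow_def_of_pos two_pos, ← Real.exp_log (pow_pos a0 _), ← Real.exp_neg, Real.log_pow]
    have := Real.log_nonpos a0.le a1
    exact Real.exp_le_exp.2 (by nlinarith)
  have y6 : (2 : ℝ) ^ ((n : ℝ) - k0 n) ≤
      2 ^ ((1 - 4 * δ) * n) * (2 ^ (δ * n) * 2 ^ (k0 n : ℝ) * (2 ^ (δ * n) * 2 ^ (δ * n))) := by
    refine y1.trans ?_
    rw [div_eq_mul_inv]
    gcongr
  simp only [← Real.rpow_add two_pos] at y6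
  have := (Real.rpow_le_rpow_left_iff one_lt_two).1 y6
  linarith

end Pool.Agent.Lib.MP_79d702_lc.NBP
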