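import Pool.Agent.Lib.MP_79d702_lc.NBP.Basic

/-!
The inequality for hidden coordinates: what a view reveals about unread coordinates is paid for
by the coordinates it reads.
-/

namespace Pool.Agent.Lib.MP_79d702_lc.NBP

open Finset

variable {ι β : Type*} [Fintype ι] [DecidableEq ι] [DecidableEq β]

/-- relative entropy of the uniform law on `Φ` with respect to a product law, times `|Φ|` -/
noncomputable def kl (Φ : Finset (ι → Bool)) (π : ι → ℝ) : ℝ :=
  ∑ y ∈ Φ, (-Real.log Φ.card - ∑ i, Real.log (mu (π i) (y i)))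

omit [Fintype ι] [DecidableEq ι] in
theorem hide_one (Φ : Finset (ι → Bool)) {π η : ℝ} (hη : 0 ≤ η) (c : (ι → Bool) → β)
    (rd : (ι → Bool) → Prop) [∀ y, Decidable (rd y)] (hrd : ∀ y y', c y = c y' → (rd y ↔ rd y'))
    (i : ι) :
    η * ∑ y ∈ Φ, (if rd y then -(π * (1 - π)) else (cav c Φ (fun z => bt (z i)) y - π) ^ 2) ≤
      ∑ y ∈ Φ, (if ¬ rd y ∧ y i = decide (π ≤ cav c Φ (fun z => bt (z i)) y)
        then η * (1 - mu π (y i)) ^ 2 else -(η * (π * (1 - π)))) := by
  set P : (ι → Bool) → ℝ := cav c Φ (fun z => bt (z i)) with hP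
  have hPc : ∀ y y', c y = c y' → P y = P y' := fun y y' h => cav_congr _ h
  let φ0 : (ι → Bool) → ℝ := fun y =>
    if rd y then -(η * (π * (1 - π))) else if π ≤ P y then -(η * (π * (1 - π))) else η * π ^ 2
  let φ1 : (ι → Bool) → ℝ := fun y =>
    if rd y then 0 else if π ≤ P y then η * (1 - π) else -(η * π)
  have e1 : ∀ y ∈ Φ, (if ¬ rd y ∧ y i = decide (π ≤ P y)
      then η * (1 - mu π (y i)) ^ 2 else -(η * (π * (1 - π)))) = φ0 y + φ1 y * bt (y i) := by
    intro y _
    by_cases h : rd y <;> by_cases h' : π ≤ P y <;> cases hy : y i <;>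
      simp [φ0, φ1, h, h', bt, mu] <;> ring
  have e2 : ∑ y ∈ Φ, φ1 y * bt (y i) = ∑ y ∈ Φ, φ1 y * P y :=
    (sum_mul_cav φ1 (fun z => bt (z i)) fun y y' h => by
      simp only [φ1, hrd y y' h, hPc y y' h]).symm
  rw [sum_congr rfl e1, sum_add_distrib, e2, ← sum_add_distrib, mul_sum]
  refine sum_le_sum fun y _ => ?_
  have a0 : 0 ≤ P y := cav_nonneg (fun z => bt_nonneg _) y
  have a1 : P y ≤ 1 := cav_le_one (fun z => bt_le_one _) y
  by_cases h : rd y
  · simp [φ0, φ1, h]
  · by_cases h' : π ≤ P y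
    · simp only [φ0, φ1, h, h', if_true, if_false]
      nlinarith [mul_nonneg hη (mul_nonneg (sub_nonneg.2 h') (sub_nonneg.2 a1))]
    · simp only [φ0, φ1, h, h', if_false]
      have h'' : 0 ≤ π - P y := by linarith [not_le.1 h']
      nlinarith [mul_nonneg hη (mul_nonneg h'' a0)]

theorem hide (Φ : Finset (ι → Bool)) (π : ι → ℝ) (h0 : ∀ i, 0 ≤ π i) (h1 : ∀ i, π i ≤ 1)
    (hpos : ∀ y ∈ Φ, ∀ i, 0 < mu (π i) (y i)) (S : Finset ι) (c : (ι → Bool) → β)
    (rd : (ι → Bool) → ι → Prop) [∀ y i, Decidable (rd y i)]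
    (hrd : ∀ y y', c y = c y' → ∀ i, rd y i ↔ rd y' i)
    (hsep : ∀ y ∈ Φ, ∀ y' ∈ Φ, (∀ i, (i ∉ S ∨ rd y i ∨ rd y' i) → y i = y' i) → c y = c y')
    {η : ℝ} (hη : 0 ≤ η) (hη1 : η ≤ 1) :
    η * ∑ i ∈ S, ∑ y ∈ Φ, (if rd y i then -(π i * (1 - π i))
        else (cav c Φ (fun z => bt (z i)) y - π i) ^ 2) ≤
      2 * η ^ 2 * S.card * Φ.card + kl Φ π := by
  let e : ι → ℝ := fun i => if i ∈ S then η else 0
  have he0 : ∀ i, 0 ≤ e i := fun i => by simp only [e]; split_ifs <;> linarith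
  have he1 : ∀ i, e i ≤ 1 := fun i => by simp only [e]; split_ifs <;> linarith
  let bs : (ι → Bool) → ι → Bool := fun y i => decide (π i ≤ cav c Φ (fun z => bt (z i)) y)
  let hid : (ι → Bool) → ι → Prop := fun y i => i ∈ S ∧ ¬ rd y i ∧ y i = bs y i
  let ρ : ι → Option Bool → ℝ := fun i a =>
    a.elim (e i * (π i * (1 - π i))) fun b => (1 - e i * (π i * (1 - π i))) * mu (π i) b
  let T : (ι → Bool) → ι → Finset (Option Bool) := fun y i =>
    if hid y i then {some (y i), none} else {some (y i)}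
  have a1 : ∀ i, 0 ≤ π i * (1 - π i) := fun i => mul_nonneg (h0 i) (by linarith [h1 i])
  have a2 : ∀ i, e i * (π i * (1 - π i)) ≤ 1 := fun i => by
    nlinarith [sq_nonneg (π i - 1 / 2), he0 i, he1 i, a1 i]
  have hb := boxes ρ (fun i a => by
      cases a with
      | none => exact mul_nonneg (he0 i) (a1 i)
      | some b =>
        refine mul_nonneg (by linarith [a2 i]) ?_
        cases b <;> simp [mu] <;> linarith [h0 i, h1 i])
    (fun i => by simp [Fintype.sum_option, ρ, mu]; ring) Φ T (by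
      intro y hy y' hy' g hg hg'
      have key : ∀ i, (hid y i ∧ hid y' i) ∨ y i = y' i := by
        intro i
        have s1 := hg i
        have s2 := hg' i
        simp only [T] at s1 s2
        by_cases k1 : hid y i <;> by_cases k2 : hid y' i
        · exact Or.inl ⟨k1, k2⟩
        · simp only [k1, k2, if_true, if_false, mem_insert, mem_singleton] at s1 s2
          rw [s2] at s1; simp at s1; exact Or.inr s1.symm
        · simp only [k1, k2, if_true, if_false, mem_insert, mem_singleton] at s1 s2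
          rw [s1] at s2; simp at s2; exact Or.inr s2
        · simp only [k1, k2, if_false, mem_singleton] at s1 s2
          rw [s1] at s2; simp at s2; exact Or.inr s2
      have hc : c y = c y' := hsep y hy y' hy' fun i hi => by
        rcases key i with k | k
        · rcases hi with hi | hi | hi
          exacts [absurd k.1.1 hi, absurd hi k.1.2.1, absurd hi k.2.2.1]
        · exact k
      funext i
      rcases key i with k | k
      · rw [k.1.2.2, k.2.2.2]; simp only [bs, cav_congr _ hc]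
      · exact k)
  have e1 : ∀ y i, ∑ a ∈ T y i, ρ i a = fac (e i) (π i) (y i) (hid y i) := by
    intro y i
    simp only [T, fac]
    split_ifs <;> simp [ρ]
  simp_rw [e1] at hb
  have hfp : ∀ y ∈ Φ, ∀ i, 0 < fac (e i) (π i) (y i) (hid y i) := fun y hy i =>
    fac_pos _ (he0 i) (he1 i) (h0 i) (h1 i) (hpos y hy i)
  have hl := sum_log_le Φ _ (fun y hy => prod_pos fun i _ => hfp y hy i) hb
  let g : (ι → Bool) → ι → ℝ := fun y i => if ¬ rd y i ∧ y i = bs y i
    then η * (1 - mu (π i) (y i)) ^ 2 else -(η * (π i * (1 - π i)))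
  have e2 : ∀ y ∈ Φ, ∑ i, Real.log (mu (π i) (y i)) + ∑ i ∈ S, g y i - 2 * η ^ 2 * S.card ≤
      Real.log (∏ i, fac (e i) (π i) (y i) (hid y i)) := by
    intro y hy
    rw [Real.log_prod fun i _ => (hfp y hy i).ne']
    have : ∑ i ∈ S, g y i - 2 * η ^ 2 * S.card =
        ∑ i, if i ∈ S then g y i - 2 * η ^ 2 else 0 := by
      rw [sum_ite_mem, univ_inter, sum_sub_distrib]; simp; ring
    rw [add_sub_assoc, this, ← sum_add_distrib]
    refine sum_le_sum fun i _ => ?_
    by_cases hi : i ∈ S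
    · have hei : e i = η := by simp [e, hi]
      rw [if_pos hi, hei]
      by_cases hh : hid y i
      · have := log_fac_hid hη (h0 i) (h1 i) (hpos y hy i) hh
        simp only [g, if_pos hh.2]; linarith
      · have := log_fac_not hη hη1 (h0 i) (h1 i) (hpos y hy i) hh
        have hn : ¬ (¬ rd y i ∧ y i = bs y i) := fun k => hh ⟨hi, k⟩
        simp only [g, if_neg hn]; linarith
    · have hei : e i = 0 := by simp [e, hi]
      have := log_fac_not (η := 0) le_rfl zero_le_one (h0 i) (h1 i) (hpos y hy i)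
        (fun k : hid y i => hi k.1)
      rw [if_neg hi, hei]; linarith
  have e3 : η * ∑ i ∈ S, ∑ y ∈ Φ, (if rd y i then -(π i * (1 - π i))
      else (cav c Φ (fun z => bt (z i)) y - π i) ^ 2) ≤ ∑ y ∈ Φ, ∑ i ∈ S, g y i := by
    rw [sum_comm (s := Φ), mul_sum]
    exact sum_le_sum fun i _ => hide_one Φ hη c (fun y => rd y i) (fun y y' h => hrd y y' h i) i
  have e4 := sum_le_sum fun y hy => add_le_add_right (e2 y hy) (Real.log Φ.card)
  have e5 : ∑ y ∈ Φ, (Real.log Φ.card + (∑ i, Real.log (mu (π i) (y i)) + ∑ i ∈ S, g y i -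
      2 * η ^ 2 * S.card)) =
      -kl Φ π + ∑ y ∈ Φ, ∑ i ∈ S, g y i - 2 * η ^ 2 * S.card * Φ.card := by
    rw [kl, ← sum_neg_distrib, ← sum_add_distrib,
      show 2 * η ^ 2 * S.card * Φ.card = ∑ y ∈ Φ, 2 * η ^ 2 * S.card by simp; ring,
      ← sum_sub_distrib]
    exact sum_congr rfl fun y _ => by ring
  linarith

theorem kl_nonneg (Φ : Finset (ι → Bool)) (π : ι → ℝ) (h0 : ∀ i, 0 ≤ π i) (h1 : ∀ i, π i ≤ 1)
    (hpos : ∀ y ∈ Φ, ∀ i, 0 < mu (π i) (y i)) : 0 ≤ kl Φ π := by
  have := hide Φ π h0 h1 hpos ∅ (fun _ => ()) (fun _ _ => False) (by simp) (by simp)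
    (η := 0) le_rfl zero_le_one
  simpa using this

/-- a set of small relative entropy has a section on `U` that no half of `U` determines -/
theorem exists_free (Φ : Finset (ι → Bool)) (π : ι → ℝ) (h0 : ∀ i, 0 ≤ π i)
    (h1 : ∀ i, π i ≤ 1) (hpos : ∀ y ∈ Φ, ∀ i, 0 < mu (π i) (y i)) (U : Finset ι) {b : ℝ}
    (hb : 0 ≤ b) (hU : ∀ i ∈ U, b ≤ π i * (1 - π i)) (hk : kl Φ π < Φ.card * (b * U.card / 2)) :
    ∃ P ⊆ Φ, (∀ y ∈ P, ∀ y' ∈ P, ∀ i ∉ U, y i = y' i) ∧
      ∀ T ⊆ U, 2 * T.card ≤ U.card → ∃ y ∈ P, ∃ y' ∈ P, y ≠ y' ∧ ∀ i ∈ T, y i = y' i := by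
  classical
  by_contra hcon
  push Not at hcon
  let d : (ι → Bool) → ι → Option Bool := fun y i => if i ∈ U then none else some (y i)
  have hd : ∀ y y', d y = d y' ↔ ∀ i ∉ U, y i = y' i := by
    intro y y'
    simp only [d, funext_iff]
    refine forall_congr' fun i => ?_
    by_cases hi : i ∈ U <;> simp [hi]
  have hT : ∀ k : ι → Option Bool, ∃ T ⊆ U, 2 * T.card ≤ U.card ∧ ∀ y ∈ Φ, d y = k →
      ∀ y' ∈ Φ, d y' = k → (∀ i ∈ T, y i = y' i) → y = y' := by
    intro k
    obtain ⟨T, t1, t2, t3⟩ := hcon (Φ.filter fun y => d y = k) (filter_subset _ _)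
      fun y hy y' hy' => (hd y y').1 ((mem_filter.1 hy).2.trans (mem_filter.1 hy').2.symm)
    refine ⟨T, t1, t2, fun y hy k1 y' hy' k2 h => ?_⟩
    by_contra hne
    obtain ⟨i, i1, i2⟩ := t3 y (mem_filter.2 ⟨hy, k1⟩) y' (mem_filter.2 ⟨hy', k2⟩) hne
    exact i2 (h i i1)
  choose T t1 t2 t3 using hT
  have hmu : ∀ i a, 0 ≤ mu (π i) a := fun i a => by
    cases a <;> simp [mu] <;> linarith [h0 i, h1 i]
  have hb := boxes (fun i a => mu (π i) a) hmu (fun i => by simp [mu]) Φ
    (fun y i => if i ∈ U \ T (d y) then univ else {y i}) (by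
      intro y hy y' hy' g hg hg'
      have k1 : d y = d y' := (hd y y').2 fun i hi => by
        have s1 := hg i
        have s2 := hg' i
        simp only [mem_sdiff, hi, false_and, if_false, mem_singleton] at s1 s2
        rw [← s1, ← s2]
      refine t3 (d y) y hy rfl y' hy' k1.symm fun i hi => ?_
      have s1 := hg i
      have s2 := hg' i
      rw [← k1] at s2
      simp only [mem_sdiff, hi, not_true, and_false, if_false, mem_singleton] at s1 s2
      rw [← s1, ← s2])
  have e1 : ∀ y i, ∑ a ∈ (if i ∈ U \ T (d y) then univ else {y i}), mu (π i) a =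
      if i ∈ U \ T (d y) then 1 else mu (π i) (y i) := by
    intro y i; split_ifs <;> simp [mu]
  simp_rw [e1] at hb
  have hp : ∀ y ∈ Φ, ∀ i, 0 < if i ∈ U \ T (d y) then 1 else mu (π i) (y i) := fun y hy i => by
    split_ifs
    exacts [one_pos, hpos y hy i]
  have hl := sum_log_le Φ _ (fun y hy => prod_pos fun i _ => hp y hy i) hb
  have e2 : ∀ y ∈ Φ, ∑ i, Real.log (mu (π i) (y i)) + b * U.card / 2 ≤
      Real.log (∏ i, if i ∈ U \ T (d y) then 1 else mu (π i) (y i)) := by
    intro y hy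
    rw [Real.log_prod fun i _ => (hp y hy i).ne']
    have c1 : (U.card : ℝ) / 2 ≤ (U \ T (d y)).card := by
      have := card_sdiff_add_card_eq_card (t1 (d y))
      have h2 := t2 (d y)
      have : U.card ≤ 2 * (U \ T (d y)).card := by omega
      have : (U.card : ℝ) ≤ 2 * (U \ T (d y)).card := by exact_mod_cast this
      linarith
    have c2 : b * U.card / 2 ≤ ∑ i, if i ∈ U \ T (d y) then b else 0 := by
      rw [sum_ite_mem, univ_inter, sum_const, nsmul_eq_mul]; nlinarith
    refine le_trans (add_le_add_right c2 _) ?_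
    rw [← sum_add_distrib]
    refine sum_le_sum fun i _ => ?_
    split_ifs with hi
    · have := Real.log_le_sub_one_of_pos (hpos y hy i)
      have h3 := hU i (mem_sdiff.1 hi).1
      have h4 : mu (π i) (y i) ≤ 1 - b := by
        cases y i <;> simp [mu] <;> nlinarith [h0 i, h1 i]
      rw [Real.log_one]; linarith
    · simp
  have e4 := sum_le_sum fun y hy => add_le_add_right (e2 y hy) (Real.log Φ.card)
  have e5 : ∑ y ∈ Φ, (Real.log Φ.card + (∑ i, Real.log (mu (π i) (y i)) + b * U.card / 2)) =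
      -kl Φ π + Φ.card * (b * U.card / 2) := by
    rw [kl, ← sum_neg_distrib, ← nsmul_eq_mul, ← sum_const, ← sum_add_distrib]
    exact sum_congr rfl fun y _ => by ring
  linarith

end Pool.Agent.Lib.MP_79d702_lc.NBP
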