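import Pool.Agent.Shared.PolyTime
import Pool.Agent.Lib.MP_79d702_lc.NBP.Iface

/-!
The hard language: even parity and a quadratic form with a Cauchy matrix modulo a prime.
-/

namespace Pool.Agent.Lib.MP_79d702_lc.NBP

open Finset Pool.Agent.Shared.PolyTime

/-- the least prime above `n` -/
def prm (n : ℕ) : ℕ :=
  ((List.range (2 * n + 3)).find? fun t => decide (n < t) && decide (2 ≤ t) &&
    (List.range (2 * n + 3)).all fun d => decide (d < 2) || decide (t ≤ d) || t % d != 0).getD 0

@[fun_prop] theorem prm_pt {α : Type} [N487b59b3 α] {n : α → ℕ} (hn : PT n) (hb : PB n) :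
    PT (fun a => prm (n a)) := by
  have h1 : PT (fun a => List.range (2 * n a + 3)) := by fun_prop
  unfold prm
  refine PT.getD (PT.find? h1 ?_) (by fun_prop)
  refine PT.and (by fun_prop) (PT.all (h1.comp' (f := Prod.fst) (by fun_prop)) (by fun_prop))

theorem prm_spec (n : ℕ) : (prm n).Prime ∧ n < prm n ∧ prm n ≤ 2 * n + 2 := by
  unfold prm
  generalize hf : (fun t => decide (n < t) && decide (2 ≤ t) &&
    (List.range (2 * n + 3)).all fun d => decide (d < 2) || decide (t ≤ d) || t % d != 0) = f
  rcases h : (List.range (2 * n + 3)).find? f with _ | t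
  · exfalso
    obtain ⟨p, hp, h1, h2⟩ := Nat.exists_prime_lt_and_le_two_mul (n + 1) (by omega)
    rw [List.find?_eq_none] at h
    refine h p (by simp; omega) ?_
    subst hf
    simp only [Bool.and_eq_true, decide_eq_true_eq, List.all_eq_true, Bool.or_eq_true,
      bne_iff_ne]
    refine ⟨⟨by omega, hp.two_le⟩, fun d _ => ?_⟩
    by_contra hc
    push Not at hc
    have := (Nat.dvd_prime hp).1 (Nat.dvd_of_mod_eq_zero hc.2)
    omega
  · have h1 := List.find?_some h
    have h2 := List.mem_of_find?_eq_some h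
    subst hf
    simp only [Bool.and_eq_true, decide_eq_true_eq, List.all_eq_true, Bool.or_eq_true,
      bne_iff_ne, List.mem_range] at h1 h2
    simp only [Option.getD_some]
    refine ⟨Nat.prime_def_lt.2 ⟨h1.1.2, fun d hd hdvd => ?_⟩, h1.1.1, by omega⟩
    have h3 := h1.2 d (by omega)
    have h4 := Nat.mod_eq_zero_of_dvd hdvd
    have h5 : d ≠ 0 := by rintro rfl; simp at hdvd; omega
    omega

@[fun_prop] theorem prm_pb {α : Type} [N487b59b3 α] {n : α → ℕ} (hb : PB n) :
    PB (fun a => prm (n a)) :=
  PB.mono (g := fun a => 2 * n a + 2) (by fun_prop) fun a => (prm_spec _).2.2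

/-- the number of control variables -/
def k0 (n : ℕ) : ℕ := Nat.size (prm (2 * n)) + 1

@[fun_prop] theorem k0_pt {α : Type} [N487b59b3 α] {n : α → ℕ} (hn : PT n) (hb : PB n) :
    PT (fun a => k0 (n a)) := by
  have h1 : PT (fun a => prm (2 * n a)) := prm_pt (by fun_prop) (by fun_prop)
  exact PT.add ((PT.sz h1).of_eq fun a => sz_nat _) (PT.const 1)

theorem k0_le (n : ℕ) : 2 ^ k0 n ≤ 16 * n + 8 := by
  obtain ⟨hp, h1, h2⟩ := prm_spec (2 * n)
  have h3 : 2 ^ (Nat.size (prm (2 * n)) - 1) ≤ prm (2 * n) :=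
    Nat.lt_size.1 (by have := Nat.size_pos.2 hp.pos; omega)
  have h4 : k0 n = Nat.size (prm (2 * n)) - 1 + 2 := by
    have := Nat.size_pos.2 hp.pos
    unfold k0; omega
  rw [h4, pow_add]
  omega

/-- the `i`-th bit as a number -/
def bit (x : List Bool) (i : ℕ) : ℕ := (x.getD i false).toNat

/-- the coefficients of the linear part -/
def wt (n i : ℕ) : ℕ := if 1 ≤ i ∧ i < k0 n then 2 ^ min (i - 1) n else 0

/-- the coefficients of the quadratic part -/
def cf (n i j : ℕ) : ℕ := if k0 n ≤ i ∧ k0 n ≤ j then (i + j) ^ (prm (2 * n) - 2) else 0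

/-- the quadratic form -/
def qf (x : List Bool) : ℕ :=
  ((List.range x.length).map fun i => wt x.length i * bit x i +
    ((List.range x.length).map fun j => cf x.length i j * bit x i * bit x j).sum).sum

/-- the language -/
def lang (x : List Bool) : Bool :=
  (((List.range x.length).map fun i => bit x i).sum % 2 == 0) && (qf x % prm (2 * x.length) == 0)

section pt

variable {α : Type} [N487b59b3 α]

@[fun_prop] theorem bit_pt {x : α → List Bool} {i : α → ℕ} (hx : PT x) (hi : PT i) :
    PT (fun a => bit (x a) (i a)) := by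
  unfold bit; fun_prop

@[fun_prop] theorem wt_pt {n i : α → ℕ} (hn : PT n) (hb : PB n) (hi : PT i) :
    PT (fun a => wt (n a) (i a)) := by
  have hk := k0_pt hn hb
  unfold wt
  refine PT.ite (PT.decide_and (by fun_prop) (by fun_prop)) ?_ (by fun_prop)
  exact PT.pow (by fun_prop) (by fun_prop) (PB.min_right hb _)

@[fun_prop] theorem cf_pt {n i j : α → ℕ} (hn : PT n) (hb : PB n) (hi : PT i) (hj : PT j) :
    PT (fun a => cf (n a) (i a) (j a)) := by
  have hk := k0_pt hn hb
  have h1 : PT (fun a => prm (2 * n a)) := prm_pt (by fun_prop) (by fun_prop)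
  have h2 : PB (fun a => prm (2 * n a)) := prm_pb (by fun_prop)
  unfold cf
  refine PT.ite (PT.decide_and (by fun_prop) (by fun_prop)) ?_ (by fun_prop)
  exact PT.pow (by fun_prop) (by fun_prop) (PB.sub h2 _)

theorem qf_pt : PT qf := by
  unfold qf
  refine PT.sum (PT.map (h := fun (x : List Bool) i => wt x.length i * bit x i +
    ((List.range x.length).map fun j => cf x.length i j * bit x i * bit x j).sum) (by fun_prop) ?_)
  refine PT.add (PT.mul (wt_pt (by fun_prop) (by fun_prop) (by fun_prop)) (by fun_prop)) ?_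
  refine PT.sum (PT.map (h := fun (q : List Bool × ℕ) j =>
    cf q.1.length q.2 j * bit q.1 q.2 * bit q.1 j) (by fun_prop) ?_)
  exact PT.mul (PT.mul (cf_pt (by fun_prop) (by fun_prop) (by fun_prop) (by fun_prop))
    (by fun_prop)) (by fun_prop)

end pt

theorem lang_P : lang ∈ N68a2faeb.P := by
  refine PT.isPolyTime ?_
  have h1 : PT (fun x : List Bool => prm (2 * x.length)) := prm_pt (by fun_prop) (by fun_prop)
  have h2 := qf_pt
  have h3 : PT (fun x : List Bool => ((List.range x.length).map fun i => bit x i).sum) :=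
    PT.sum (PT.map (h := fun (x : List Bool) i => bit x i) (by fun_prop) (by fun_prop))
  unfold lang
  exact PT.and (PT.beq (PT.mod h3 (PT.const 2)) (PT.const 0)) (PT.beq (PT.mod h2 h1) (PT.const 0))

theorem sum_map_range (n : ℕ) (f : ℕ → ℕ) :
    ((List.range n).map f).sum = ∑ i : Fin n, f i := by
  rw [← Finset.sum_range]
  induction n with
  | zero => simp
  | succ n ih => simp [List.range_succ, Finset.sum_range_succ, ih]

theorem bit_ofFn {n : ℕ} (x : Fin n → Bool) (i : Fin n) : bit (List.ofFn x) i = (x i).toNat := by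
  simp [bit, List.getD_eq_getElem?_getD]

theorem lang_iff {n : ℕ} (x : Fin n → Bool) : lang (List.ofFn x) = true ↔
    (∑ i, (x i).toNat) % 2 = 0 ∧
      prm (2 * n) ∣ ∑ i : Fin n, (wt n i * (x i).toNat +
        ∑ j : Fin n, cf n i j * (x i).toNat * (x j).toNat) := by
  simp only [lang, qf, List.length_ofFn, sum_map_range, bit_ofFn, Bool.and_eq_true, beq_iff_eq,
    Nat.dvd_iff_mod_eq_zero]

theorem sum_update_not {n : ℕ} (x : Fin n → Bool) (i : Fin n) :
    (∑ j, (Function.update x i (!x i) j).toNat + ∑ j, (x j).toNat) % 2 = 1 := by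
  rw [← Finset.add_sum_erase _ _ (mem_univ i), ← Finset.add_sum_erase _ (fun j => (x j).toNat)
    (mem_univ i), Function.update_self]
  have h : ∑ j ∈ univ.erase i, (Function.update x i (!x i) j).toNat =
      ∑ j ∈ univ.erase i, (x j).toNat :=
    sum_congr rfl fun j hj => by rw [Function.update_of_ne (ne_of_mem_erase hj)]
  rw [h]
  cases x i <;> simp <;> omega

theorem lang_sens (n : ℕ) (x : Fin n → Bool) (i : Fin n) :
    lang (List.ofFn x) = true → lang (List.ofFn (Function.update x i (!x i))) = false := by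
  intro h
  by_contra h'
  rw [Bool.not_eq_false, lang_iff] at h'
  rw [lang_iff] at h
  have := sum_update_not x i
  omega

theorem sum_testBit (c k : ℕ) :
    ∑ i ∈ range k, 2 ^ i * (c.testBit i).toNat = c % 2 ^ k := by
  induction k with
  | zero => simp [Nat.mod_one]
  | succ k ih =>
    rw [sum_range_succ, ih, Nat.mod_pow_succ, Nat.testBit_eq_decide_div_mod_eq]
    rcases Nat.mod_two_eq_zero_or_one (c / 2 ^ k) with h | h <;> simp [h]

/-- every assignment of the free variables extends to an accepted input -/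
theorem lang_extend (n : ℕ) (hn : k0 n ≤ n) (z : Fin n → Bool) :
    ∃ x : Fin n → Bool, lang (List.ofFn x) = true ∧ ∀ i : Fin n, k0 n ≤ i → x i = z i := by
  obtain ⟨hp, -, -⟩ := prm_spec (2 * n)
  set p := prm (2 * n) with hpdef
  have hk : k0 n = p.size + 1 := rfl
  set Q := ∑ i : Fin n, ∑ j : Fin n, cf n i j * (z i).toNat * (z j).toNat with hQ
  set c := (p - 1) * Q % p with hc
  have hcp : c < 2 ^ p.size := (Nat.mod_lt _ hp.pos).trans (Nat.lt_size_self p)
  have key : ∀ x : Fin n → Bool, (∀ i : Fin n, k0 n ≤ i → x i = z i) →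
      (∀ i : Fin n, 1 ≤ i.val → i.val < k0 n → x i = c.testBit (i - 1)) →
      p ∣ ∑ i : Fin n, (wt n i * (x i).toNat +
        ∑ j : Fin n, cf n i j * (x i).toNat * (x j).toNat) := by
    intro x h1 h2
    have e1 : ∑ i : Fin n, ∑ j : Fin n, cf n i j * (x i).toNat * (x j).toNat = Q := by
      refine sum_congr rfl fun i _ => sum_congr rfl fun j _ => ?_
      unfold cf
      split_ifs with h
      · rw [h1 i h.1, h1 j h.2]
      · simp
    have e2 : ∑ i : Fin n, wt n i * (x i).toNat = c := by
      have e3 : ∑ i : Fin n, wt n i * (x i).toNat =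
          ∑ i : Fin n, wt n i * (c.testBit (i - 1)).toNat := by
        refine sum_congr rfl fun i _ => ?_
        unfold wt
        split_ifs with h
        · rw [h2 i h.1 h.2]
        · simp
      rw [e3, ← Finset.sum_range (fun i => wt n i * (c.testBit (i - 1)).toNat),
        ← sum_subset (range_subset_range.2 hn) (fun i _ hi => by
          rw [mem_range] at hi
          simp [wt, hi]), hk, sum_range_succ']
      have e4 : ∑ i ∈ range p.size, wt n (i + 1) * (c.testBit (i + 1 - 1)).toNat =
          ∑ i ∈ range p.size, 2 ^ i * (c.testBit i).toNat := by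
        refine sum_congr rfl fun i hi => ?_
        rw [mem_range] at hi
        rw [wt, if_pos ⟨by omega, by omega⟩, Nat.add_sub_cancel, min_eq_left (by omega)]
      rw [e4, sum_testBit, Nat.mod_eq_of_lt hcp]
      simp [wt]
    rw [sum_add_distrib, e1, e2, Nat.dvd_iff_mod_eq_zero, hc, Nat.mod_add_mod]
    have : (p - 1) * Q + Q = p * Q := by
      obtain ⟨m, hm⟩ : ∃ m, p = m + 1 := ⟨p - 1, by have := hp.pos; omega⟩
      rw [hm, Nat.add_sub_cancel]; ring
    rw [this, Nat.mul_mod_right]
  let x : Fin n → Bool := fun i => if k0 n ≤ i.val then z i else c.testBit (i - 1)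
  have hx1 : ∀ i : Fin n, k0 n ≤ i → x i = z i := fun i hi => if_pos hi
  have hx2 : ∀ i : Fin n, 1 ≤ i.val → i.val < k0 n → x i = c.testBit (i - 1) :=
    fun i _ hi => if_neg (by omega)
  by_cases hpar : (∑ i, (x i).toNat) % 2 = 0
  · exact ⟨x, (lang_iff x).2 ⟨hpar, key x hx1 hx2⟩, hx1⟩
  · let o : Fin n := ⟨0, by omega⟩
    have hne : ∀ i : Fin n, 1 ≤ i.val → Function.update x o (!x o) i = x i := fun i hi =>
      Function.update_of_ne (fun h => by rw [h] at hi; simp [o] at hi) _ _
    have hy1 : ∀ i : Fin n, k0 n ≤ i → Function.update x o (!x o) i = z i := fun i hi => by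
      rw [hne i (by omega), hx1 i hi]
    refine ⟨Function.update x o (!x o), (lang_iff _).2 ⟨?_, key _ hy1 fun i h1 h2 => ?_⟩, hy1⟩
    · have := sum_update_not x o
      omega
    · rw [hne i h1, hx2 i h1 h2]

theorem lang_count (n : ℕ) (hn : k0 n ≤ n) :
    2 ^ (n - k0 n) ≤ (univ.filter fun x : Fin n → Bool => lang (List.ofFn x) = true).card := by
  have h := Finset.card_le_card_of_surjOn
    (s := univ.filter fun x : Fin n → Bool => lang (List.ofFn x) = true)
    (t := (univ : Finset (Fin (n - k0 n) → Bool)))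
    (fun x i => x ⟨k0 n + i, by omega⟩) (fun y _ => by
      obtain ⟨x, h1, h2⟩ := lang_extend n hn
        (fun i => if h : k0 n ≤ i.val then y ⟨i - k0 n, by omega⟩ else false)
      refine ⟨x, by simpa using h1, funext fun i => ?_⟩
      simp only
      rw [h2 _ (by simp), dif_pos (by simp)]
      simp)
  simpa using h

end Pool.Agent.Lib.MP_79d702_lc.NBP
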