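import Pool.Agent.Lib.MP_79d702_lc.NBP.Lang

/-!
The language accepts no embedded rectangle with free sides.
-/

namespace Pool.Agent.Lib.MP_79d702_lc.NBP

open Finset Module

section lin

variable {F : Type*} [Field F]

/-- a space of vectors is determined by as many coordinates as its dimension -/
theorem exists_pivots {κ : Type*} [Fintype κ] [DecidableEq κ] (d : ℕ) :
    ∀ V : Submodule F (κ → F), finrank F V ≤ d →
      ∃ T : Finset κ, T.card ≤ d ∧ ∀ v ∈ V, (∀ i ∈ T, v i = 0) → v = 0 := by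
  induction d with
  | zero =>
    intro V hV
    refine ⟨∅, le_rfl, fun v hv _ => ?_⟩
    rw [Nat.le_zero, Submodule.finrank_eq_zero] at hV
    simpa [hV] using hv
  | succ d ih =>
    intro V hV
    by_cases h : ∀ v ∈ V, v = 0
    · exact ⟨∅, by simp, fun v hv _ => h v hv⟩
    push Not at h
    obtain ⟨w, hw, hw0⟩ := h
    obtain ⟨i, hi⟩ := Function.ne_iff.1 hw0
    have hlt : V ⊓ LinearMap.ker (LinearMap.proj i : (κ → F) →ₗ[F] F) < V :=
      lt_of_le_of_ne inf_le_left fun h => hi (by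
        have h2 : w ∈ V ⊓ LinearMap.ker (LinearMap.proj i : (κ → F) →ₗ[F] F) := by
          rw [h]; exact hw
        simpa using h2.2)
    obtain ⟨T, hT, hT'⟩ := ih _ (Nat.lt_succ_iff.1
      ((Submodule.finrank_lt_finrank_of_lt hlt).trans_le hV))
    refine ⟨insert i T, (card_insert_le _ _).trans (by omega), fun v hv h0 => ?_⟩
    exact hT' v ⟨hv, by simpa using h0 i (mem_insert_self _ _)⟩
      fun j hj => h0 j (mem_insert_of_mem hj)

/-- orthogonal subspaces -/
theorem finrank_add_le {κ : Type*} [Fintype κ] [DecidableEq κ] (A B : Submodule F (κ → F))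
    (h : ∀ a ∈ A, ∀ b ∈ B, b ⬝ᵥ a = 0) : finrank F A + finrank F B ≤ Fintype.card κ := by
  have h1 : B.map (dotProductEquiv F κ).toLinearMap ≤ A.dualAnnihilator := by
    rintro _ ⟨b, hb, rfl⟩
    rw [Submodule.mem_dualAnnihilator]
    intro a ha
    simpa using h a ha b hb
  have h2 := Submodule.finrank_mono h1
  rw [LinearEquiv.finrank_map_eq] at h2
  have h3 := Subspace.finrank_add_finrank_dualAnnihilator_eq A
  rw [Module.finrank_fintype_fun_eq_card] at h3
  omega

open Polynomial in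
/-- Cauchy matrices are nonsingular -/
theorem cauchy {α β : Type*} [Fintype α] [Fintype β] [DecidableEq β] (a : α → F) (b : β → F)
    (ha : Function.Injective a) (hb : Function.Injective b)
    (hc : Fintype.card β ≤ Fintype.card α) (hab : ∀ i j, a i + b j ≠ 0) (v : β → F)
    (hv : ∀ i, ∑ j, (a i + b j)⁻¹ * v j = 0) : v = 0 := by
  funext j₀
  have hpos : 0 < Fintype.card β := Fintype.card_pos_iff.2 ⟨j₀⟩
  have hG : (∑ j, C (v j) * ∏ k ∈ univ.erase j, (X + C (b k)) : F[X]) = 0 := by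
    refine eq_zero_of_natDegree_lt_card_of_eval_eq_zero _ ha (fun i => ?_) ?_
    · have e : ∀ j, v j * ∏ k ∈ univ.erase j, (a i + b k) =
          (∏ k, (a i + b k)) * ((a i + b j)⁻¹ * v j) := fun j => by
        rw [← mul_prod_erase _ _ (mem_univ j)]
        have := hab i j
        field_simp
      simp only [eval_finsetSum, eval_mul, eval_C, eval_prod, eval_add, eval_X, e]
      rw [← mul_sum, hv, mul_zero]
    · refine lt_of_le_of_lt (natDegree_sum_le_of_forall_le _ _ (n := Fintype.card β - 1)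
        fun j _ => (natDegree_C_mul_le _ _).trans ((natDegree_prod_le _ _).trans ?_)) (by omega)
      simp [natDegree_X_add_C]
  have h1 := congrArg (eval (-b j₀)) hG
  simp only [eval_finsetSum, eval_mul, eval_C, eval_prod, eval_add, eval_X, eval_zero] at h1
  rw [sum_eq_single j₀ (fun j _ hj => by
    rw [prod_eq_zero (i := j₀) (mem_erase.2 ⟨hj.symm, mem_univ _⟩) (by ring), mul_zero])
    (by simp)] at h1
  refine (mul_eq_zero.1 h1).resolve_right (prod_ne_zero_iff.2 fun k hk h => ?_)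
  exact ne_of_mem_erase hk (hb (by linear_combination h))

/-- the span of the differences of a set of points, on `U` -/
def dspan (F : Type*) [Field F] {ι : Type*} (P : Finset (ι → Bool)) (U : Finset ι) :
    Submodule F (U → F) :=
  Submodule.span F {v | ∃ y ∈ P, ∃ y' ∈ P, v = fun i : U => ((y i).toNat : F) - ((y' i).toNat : F)}

theorem free_dim {ι : Type*} [DecidableEq ι] {P : Finset (ι → Bool)} {U : Finset ι}
    (h : Free P U) : U.card < 2 * finrank F (dspan F P U) := by
  by_contra hc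
  obtain ⟨T, hT, hT'⟩ := exists_pivots _ (dspan F P U) le_rfl
  obtain ⟨y, hy, y', hy', hne, hag⟩ := h.2 (T.map (Function.Embedding.subtype _))
    (fun i hi => by
      obtain ⟨j, -, rfl⟩ := mem_map.1 hi
      exact j.2) (by rw [card_map]; omega)
  have h0 := hT' _ (Submodule.subset_span ⟨y, hy, y', hy', rfl⟩) fun i hi => by
    rw [hag i (mem_map.2 ⟨i, hi, rfl⟩), sub_self]
  refine hne (funext fun i => ?_)
  by_cases hi : i ∈ U
  · have h1 := congrFun h0 ⟨i, hi⟩
    simp only [Pi.zero_apply] at h1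
    revert h1
    cases y i <;> cases y' i <;> simp
  · exact h.1 y hy y' hy' i hi

/-- the double difference of a quadratic form -/
theorem dd {ι : Type*} [Fintype ι] (w : ι → F) (c : ι → ι → F) (hc : ∀ i j, c i j = c j i)
    (m u v : ι → F)
    (h0 : ∑ i, (w i * m i + ∑ j, c i j * m i * m j) = 0)
    (h1 : ∑ i, (w i * (m i + u i) + ∑ j, c i j * (m i + u i) * (m j + u j)) = 0)
    (h2 : ∑ i, (w i * (m i + v i) + ∑ j, c i j * (m i + v i) * (m j + v j)) = 0)
    (h3 : ∑ i, (w i * (m i + u i + v i) +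
      ∑ j, c i j * (m i + u i + v i) * (m j + u j + v j)) = 0) :
    2 * ∑ i, ∑ j, c i j * u i * v j = 0 := by
  have e : ∑ i, ∑ j, c i j * v i * u j = ∑ i, ∑ j, c i j * u i * v j := by
    rw [sum_comm]
    exact sum_congr rfl fun i _ => sum_congr rfl fun j _ => by rw [hc j i]; ring
  simp only [mul_add, add_mul, sum_add_distrib] at h0 h1 h2 h3
  linear_combination h3 - h1 - h2 + h0 - e

end lin

theorem lang_norect (n : ℕ) : NoRect (fun x : Fin n → Bool => lang (List.ofFn x) = true)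
    (univ.filter fun i => k0 n ≤ i.val) := by
  intro D U₁ U₂ P₁ P₂ hA₁ hA₂ hD₁ hD₂ hcard hF₁ hF₂ hall
  obtain ⟨hp, hlt, -⟩ := prm_spec (2 * n)
  set p := prm (2 * n) with hpdef
  haveI : Fact p.Prime := ⟨hp⟩
  have hk : 1 ≤ k0 n := by unfold k0; omega
  have hnz : ∀ t : ℕ, 0 < t → t < p → (t : ZMod p) ≠ 0 := fun t h1 h2 h =>
    Nat.not_dvd_of_pos_of_lt h1 h2 ((ZMod.natCast_eq_zero_iff t p).1 h)
  have hinj : Function.Injective fun i : Fin n => ((i : ℕ) : ZMod p) := fun i j h => by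
    have h1 := (ZMod.natCast_eq_natCast_iff' _ _ _).1 h
    rw [Nat.mod_eq_of_lt (by omega), Nat.mod_eq_of_lt (by omega)] at h1
    exact Fin.ext h1
  have hge₁ : ∀ i : U₁, k0 n ≤ i.1.val := fun i => (mem_filter.1 (hA₁ i.2)).2
  have hge₂ : ∀ i : U₂, k0 n ≤ i.1.val := fun i => (mem_filter.1 (hA₂ i.2)).2
  have hab : ∀ (i : U₁) (j : U₂), ((i.1 : ℕ) : ZMod p) + ((j.1 : ℕ) : ZMod p) ≠ 0 := fun i j => by
    rw [← Nat.cast_add]
    exact hnz _ (by have := hge₁ i; omega) (by omega)
  have hcf : ∀ (i : U₁) (j : U₂), (cf n i.1 j.1 : ZMod p) =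
      (((i.1 : ℕ) : ZMod p) + ((j.1 : ℕ) : ZMod p))⁻¹ := fun i j => by
    rw [cf, if_pos ⟨hge₁ i, hge₂ j⟩, ← hpdef]
    push_cast
    refine eq_inv_of_mul_eq_one_left ?_
    rw [← pow_succ, show p - 2 + 1 = p - 1 by have := hp.two_le; omega]
    exact ZMod.pow_card_sub_one_eq_one (hab i j)
  have hd₁ := free_dim (F := ZMod p) hF₁
  have hd₂ := free_dim (F := ZMod p) hF₂
  have h2 : (2 : ZMod p) ≠ 0 := by
    have h1 : U₁.card ≤ n := by simpa using card_le_univ U₁
    have h3 : finrank (ZMod p) (dspan (ZMod p) P₁ U₁) ≤ U₁.card := by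
      simpa using Submodule.finrank_le (dspan (ZMod p) P₁ U₁)
    exact_mod_cast hnz 2 (by norm_num) (by omega)
  let M : Matrix U₁ U₂ (ZMod p) := Matrix.of fun i j =>
    (((i.1 : ℕ) : ZMod p) + ((j.1 : ℕ) : ZMod p))⁻¹
  have hM : Function.Injective M.mulVecLin := by
    rw [← LinearMap.ker_eq_bot, LinearMap.ker_eq_bot']
    intro v hv
    exact cauchy (fun i : U₁ => ((i.1 : ℕ) : ZMod p)) (fun j : U₂ => ((j.1 : ℕ) : ZMod p))
      (hinj.comp Subtype.val_injective) (hinj.comp Subtype.val_injective) (by simp [hcard]) hab v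
      fun i => congrFun hv i
  have hQ : ∀ y₁ ∈ P₁, ∀ y₂ ∈ P₂, ∀ z : Fin n → ZMod p,
      (∀ i, z i = ((if i ∈ D then y₁ i else y₂ i).toNat : ZMod p)) →
      ∑ i : Fin n, ((wt n i : ZMod p) * z i + ∑ j : Fin n, (cf n i j : ZMod p) * z i * z j) = 0 := by
    intro y₁ h₁ y₂ h₂ z hz
    have h := (ZMod.natCast_eq_zero_iff _ p).2 ((lang_iff _).1 (hall y₁ h₁ y₂ h₂)).2
    push_cast at h
    simpa only [hz] using h
  have horth : ∀ y₁ ∈ P₁, ∀ y₁' ∈ P₁, ∀ y₂ ∈ P₂, ∀ y₂' ∈ P₂,
      M.mulVec (fun j : U₂ => ((y₂ j).toNat : ZMod p) - ((y₂' j).toNat : ZMod p)) ⬝ᵥ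
        (fun i : U₁ => ((y₁ i).toNat : ZMod p) - ((y₁' i).toNat : ZMod p)) = 0 := by
    intro y₁ h₁ y₁' h₁' y₂ h₂ y₂' h₂'
    set u : Fin n → ZMod p := fun i => ((y₁ i).toNat : ZMod p) - ((y₁' i).toNat : ZMod p) with hu
    set v : Fin n → ZMod p := fun i => ((y₂ i).toNat : ZMod p) - ((y₂' i).toNat : ZMod p) with hv
    have hu0 : ∀ i ∉ U₁, u i = 0 := fun i hi => by
      simp only [hu]; rw [hF₁.1 y₁ h₁ y₁' h₁' i hi, sub_self]
    have hv0 : ∀ i ∉ U₂, v i = 0 := fun i hi => by
      simp only [hv]; rw [hF₂.1 y₂ h₂ y₂' h₂' i hi, sub_self]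
    have hu1 : ∀ i ∉ D, u i = 0 := fun i hi => hu0 i fun h => hi (hD₁ h)
    have hv1 : ∀ i ∈ D, v i = 0 := fun i hi => hv0 i fun h => disjoint_left.1 hD₂ h hi
    have key := dd (fun i : Fin n => (wt n i : ZMod p)) (fun i j : Fin n => (cf n i j : ZMod p))
      (fun i j => by simp only [cf, and_comm, add_comm])
      (fun i => ((if i ∈ D then y₁' i else y₂' i).toNat : ZMod p)) u v
      (hQ y₁' h₁' y₂' h₂' _ fun _ => rfl)
      (hQ y₁ h₁ y₂' h₂' (fun i => ((if i ∈ D then y₁' i else y₂' i).toNat : ZMod p) + u i)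
        fun i => by
          by_cases hi : i ∈ D
          · simp [hi, hu]
          · simp [hi, hu1 i hi])
      (hQ y₁' h₁' y₂ h₂ (fun i => ((if i ∈ D then y₁' i else y₂' i).toNat : ZMod p) + v i)
        fun i => by
          by_cases hi : i ∈ D
          · simp [hi, hv1 i hi]
          · simp [hi, hv])
      (hQ y₁ h₁ y₂ h₂ (fun i => ((if i ∈ D then y₁' i else y₂' i).toNat : ZMod p) + u i + v i)
        fun i => by
          by_cases hi : i ∈ D
          · rw [hv1 i hi]; simp [hi, hu]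
          · rw [hu1 i hi]; simp [hi, hv])
    have key2 := (mul_eq_zero.1 key).resolve_left h2
    rw [← sum_subset (subset_univ U₁) (fun i _ hi => by simp [hu0 i hi]), ← sum_coe_sort] at key2
    rw [← key2]
    refine sum_congr rfl fun i _ => ?_
    rw [← sum_subset (subset_univ U₂) (fun j _ hj => by simp [hv0 j hj]), ← sum_coe_sort]
    simp only [Matrix.mulVec, dotProduct, sum_mul, hcf, M, Matrix.of_apply]
    exact sum_congr rfl fun j _ => by simp only [hu, hv]; ring
  have hle := finrank_add_le (dspan (ZMod p) P₁ U₁) ((dspan (ZMod p) P₂ U₂).map M.mulVecLin) (by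
    rintro a ha _ ⟨b, hb, rfl⟩
    induction ha using Submodule.span_induction with
    | zero => simp
    | add a a' _ _ h h' => rw [dotProduct_add, h, h', add_zero]
    | smul c a _ h => rw [dotProduct_smul, h, smul_zero]
    | mem a ha =>
      obtain ⟨y₁, h₁, y₁', h₁', rfl⟩ := ha
      induction hb using Submodule.span_induction with
      | zero => simp
      | add a a' _ _ h h' => rw [map_add, add_dotProduct, h, h', add_zero]
      | smul c a _ h => rw [map_smul, smul_dotProduct, h, smul_zero]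
      | mem b hb =>
        obtain ⟨y₂, h₂, y₂', h₂', rfl⟩ := hb
        exact horth y₁ h₁ y₁' h₁' y₂ h₂ y₂' h₂')
  rw [← (Submodule.equivMapOfInjective _ hM _).finrank_eq, Fintype.card_coe] at hle
  omega

end Pool.Agent.Lib.MP_79d702_lc.NBP
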