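import Pool.Agent.Lib.MP_79d702_lc.NBP.Defs
import Pool.Agent.Lib.MP_79d702_lc.NBP.Iface

/-!
From a branching program with few tests to a large segmented set of accepted inputs.
-/

namespace Pool.Agent.Lib.MP_79d702_lc.NBP

open Finset

/-- a walk together with the list of its tests -/
inductive Reach {n : ℕ} (B : Program n) : Fin B.size → Fin B.size → List (Fin n × Bool) → Prop
  | nil (u : Fin B.size) : Reach B u u []
  | free {u v w : Fin B.size} {l : List (Fin n × Bool)} :
      B.edge u v none → Reach B v w l → Reach B u w l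
  | test {u v w : Fin B.size} {l : List (Fin n × Bool)} (q : Fin n × Bool) :
      B.edge u v (some q) → Reach B v w l → Reach B u w (q :: l)

variable {n : ℕ} {B : Program n}

theorem walk_of_reach {x : Fin n → Bool} {u w : Fin B.size} {l : List (Fin n × Bool)}
    (h : Reach B u w l) (hx : ∀ q ∈ l, x q.1 = q.2) : B.Walk x u w l.length := by
  induction h with
  | nil u => exact .nil u
  | free he _ ih => exact .free he (ih hx)
  | test q he _ ih =>
    refine .test q.1 ?_ (ih fun q' hq' => hx q' (List.mem_cons_of_mem _ hq'))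
    rw [hx q List.mem_cons_self]
    exact he

theorem reach_of_walk {x : Fin n → Bool} {u w : Fin B.size} {m : ℕ} (h : B.Walk x u w m) :
    ∃ l, Reach B u w l ∧ l.length = m ∧ ∀ q ∈ l, x q.1 = q.2 := by
  induction h with
  | nil u => exact ⟨[], .nil u, rfl, by simp⟩
  | free he _ ih =>
    obtain ⟨l, h1, h2, h3⟩ := ih
    exact ⟨l, .free he h1, h2, h3⟩
  | test i he _ ih =>
    obtain ⟨l, h1, h2, h3⟩ := ih
    refine ⟨(i, x i) :: l, .test _ he h1, by simp [h2], ?_⟩
    intro q hq
    rcases List.mem_cons.1 hq with rfl | hq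
    · rfl
    · exact h3 q hq

theorem Reach.append {u v w : Fin B.size} {l l' : List (Fin n × Bool)} (h : Reach B u v l)
    (h' : Reach B v w l') : Reach B u w (l ++ l') := by
  induction h with
  | nil u => exact h'
  | free he _ ih => exact .free he (ih h')
  | test q he _ ih => exact .test q he (ih h')

theorem Reach.split {u w : Fin B.size} {l : List (Fin n × Bool)} (h : Reach B u w l) (c : ℕ) :
    ∃ v, Reach B u v (l.take c) ∧ Reach B v w (l.drop c) := by
  induction h generalizing c with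
  | nil u => exact ⟨u, by simpa using .nil u, by simpa using .nil u⟩
  | free he _ ih =>
    obtain ⟨v, h1, h2⟩ := ih c
    exact ⟨v, .free he h1, h2⟩
  | @test u v w l q he hr ih =>
    cases c with
    | zero => exact ⟨u, .nil u, .test q he hr⟩
    | succ c =>
      obtain ⟨v', h1, h2⟩ := ih c
      exact ⟨v', .test q he h1, h2⟩

theorem Reach.cut (c r : ℕ) {u w : Fin B.size} {l : List (Fin n × Bool)} (h : Reach B u w l)
    (hl : l.length ≤ (r + 1) * c) :
    ∃ (v : ℕ → Fin B.size) (L : ℕ → List (Fin n × Bool)), v 0 = u ∧ v (r + 1) = w ∧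
      (∀ k < r + 1, Reach B (v k) (v (k + 1)) (L k) ∧ (L k).length ≤ c ∧ ∀ q ∈ L k, q ∈ l) ∧
      ∑ k ∈ range (r + 1), (L k).length ≤ l.length := by
  induction r generalizing u l with
  | zero =>
    refine ⟨fun k => if k = 0 then u else w, fun _ => l, by simp, by simp, ?_, by simp⟩
    intro k hk
    obtain rfl : k = 0 := by omega
    exact ⟨by simpa using h, by simpa using hl, fun q hq => hq⟩
  | succ r ih =>
    obtain ⟨v₁, h1, h2⟩ := h.split c
    have hd : (l.drop c).length ≤ (r + 1) * c := by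
      rw [List.length_drop]
      have : (r + 1 + 1) * c = (r + 1) * c + c := by ring
      omega
    obtain ⟨v, L, a1, a2, a3, a4⟩ := ih h2 hd
    refine ⟨fun k => Nat.casesOn k u v, fun k => Nat.casesOn k (l.take c) L, rfl, a2, ?_, ?_⟩
    · intro k hk
      cases k with
      | zero =>
        refine ⟨?_, by simp, fun q hq => List.mem_of_mem_take hq⟩
        show Reach B u (v 0) (l.take c)
        rw [a1]
        exact h1
      | succ k =>
        obtain ⟨b1, b2, b3⟩ := a3 k (by omega)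
        exact ⟨b1, b2, fun q hq => List.mem_of_mem_drop (b3 q hq)⟩
    · rw [sum_range_succ']
      show ∑ k ∈ range (r + 1), (L k).length + (l.take c).length ≤ l.length
      rw [List.length_drop] at a4
      rw [List.length_take]
      omega

theorem glue (v : ℕ → Fin B.size) (P : Fin n × Bool → Prop) (r : ℕ)
    (h : ∀ k < r, ∃ l, Reach B (v k) (v (k + 1)) l ∧ ∀ q ∈ l, P q) :
    ∃ l, Reach B (v 0) (v r) l ∧ ∀ q ∈ l, P q := by
  induction r with
  | zero => exact ⟨[], .nil _, by simp⟩
  | succ r ih =>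
    obtain ⟨l, h1, h2⟩ := ih fun k hk => h k (by omega)
    obtain ⟨l', h3, h4⟩ := h r (by omega)
    refine ⟨l ++ l', h1.append h3, fun q hq => ?_⟩
    rcases List.mem_append.1 hq with hq | hq
    exacts [h2 q hq, h4 q hq]

theorem count_opt (n e : ℕ) {a : ℝ} (ha0 : 0 < a) (ha1 : a ≤ 1) :
    ((univ.filter fun g : Fin n → Option Bool =>
      (univ.filter fun i => g i ≠ none).card ≤ e).card : ℝ) ≤ (1 + 2 * a) ^ n / a ^ e := by
  let w : Option Bool → ℝ := fun o => if o ≠ none then a else 1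
  have hw : ∀ o, 0 ≤ w o := fun o => by simp only [w]; split_ifs <;> linarith
  have h1 : ∑ o, w o = 1 + 2 * a := by simp [Fintype.sum_option, w]
  rw [le_div_iff₀ (pow_pos ha0 e), ← h1, Fintype.sum_pow, ← nsmul_eq_mul, ← sum_const]
  calc _ ≤ ∑ g ∈ univ.filter (fun g : Fin n → Option Bool =>
          (univ.filter fun i => g i ≠ none).card ≤ e), ∏ i, w (g i) := by
        refine sum_le_sum fun g hg => ?_
        simp only [w]
        rw [prod_ite, prod_const, prod_const_one, mul_one]
        exact pow_le_pow_of_le_one ha0.le ha1 (mem_filter.1 hg).2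
    _ ≤ _ := sum_le_sum_of_subset_of_nonneg (filter_subset _ _)
        fun g _ _ => prod_nonneg fun i _ => hw _

theorem card_twice {n r e : ℕ} (R : Fin r → Finset (Fin n)) (hc : ∀ i, ∃ k, i ∈ R k)
    (hs : ∑ k, (R k).card ≤ n + e) :
    (univ.filter fun i => 2 ≤ (univ.filter fun k => i ∈ R k).card).card ≤ e := by
  have h1 : ∑ k, (R k).card = ∑ i, (univ.filter fun k => i ∈ R k).card := by
    simp only [card_filter]
    rw [sum_comm]
    refine sum_congr rfl fun k _ => ?_
    rw [← card_filter]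
    simp
  have h2 : ∑ i : Fin n, (1 + if 2 ≤ (univ.filter fun k => i ∈ R k).card then 1 else 0) ≤
      ∑ i, (univ.filter fun k => i ∈ R k).card := by
    refine sum_le_sum fun i _ => ?_
    obtain ⟨k, hk⟩ := hc i
    have : 0 < (univ.filter fun k => i ∈ R k).card := card_pos.2 ⟨k, by simp [hk]⟩
    split_ifs <;> omega
  rw [sum_add_distrib, ← card_filter] at h2
  simp only [sum_const, card_univ, Fintype.card_fin, smul_eq_mul, mul_one] at h2
  omega

theorem reduce {n : ℕ} (B : Program n) (f : (Fin n → Bool) → Bool) (e r : ℕ) (hr : 0 < r)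
    (hB : B.DecidesWithin f ((n + e : ℕ) : ℝ))
    (sens : ∀ x i, f x = true → f (Function.update x i (!x i)) = false)
    (A : Finset (Fin n)) {a : ℝ} (ha0 : 0 < a) (ha1 : a ≤ 1) :
    ∃ (X : Finset (Fin n → Bool)) (τ : (Fin n → Bool) → Fin n → Fin r),
      Seg (fun x => f x = true) A ((n + e) / r + 1 + e + Aᶜ.card) X τ ∧
      ((univ.filter fun x => f x = true).card : ℝ) ≤
        X.card * ((B.size : ℝ) ^ (r + 1) * 2 ^ Aᶜ.card * ((1 + 2 * a) ^ n / a ^ e)) := by
  classical
  have acc : ∀ (v : ℕ → Fin B.size) (y : Fin n → Bool), v 0 = B.source → v r = B.sink →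
      (∀ k < r, ∃ l, Reach B (v k) (v (k + 1)) l ∧ ∀ q ∈ l, y q.1 = q.2) → f y = true := by
    intro v y h0 h1 h
    obtain ⟨l, l1, l2⟩ := glue v _ r h
    rw [h0, h1] at l1
    exact hB.1 y _ (walk_of_reach l1 l2)
  have cov : ∀ (v : ℕ → Fin B.size) (y : Fin n → Bool) (i : Fin n), v 0 = B.source →
      v r = B.sink →
      ¬ ∀ k < r, ∃ l, Reach B (v k) (v (k + 1)) l ∧ ∀ q ∈ l, y q.1 = q.2 ∧ q.1 ≠ i := by
    intro v y i h0 h1 h
    have c1 : f y = true := acc v y h0 h1 fun k hk => by
      obtain ⟨l, l1, l2⟩ := h k hk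
      exact ⟨l, l1, fun q hq => (l2 q hq).1⟩
    have c2 : f (Function.update y i (!y i)) = true := acc v _ h0 h1 fun k hk => by
      obtain ⟨l, l1, l2⟩ := h k hk
      refine ⟨l, l1, fun q hq => ?_⟩
      rw [Function.update_of_ne (l2 q hq).2]
      exact (l2 q hq).1
    rw [sens y i c1] at c2
    exact absurd c2 (by simp)
  have seg : ∀ x, f x = true → ∃ (v : ℕ → Fin B.size) (L : ℕ → List (Fin n × Bool)),
      v 0 = B.source ∧ v r = B.sink ∧
      (∀ k < r, Reach B (v k) (v (k + 1)) (L k) ∧ (L k).length ≤ (n + e) / r + 1 ∧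
        ∀ q ∈ L k, x q.1 = q.2) ∧ ∑ k ∈ range r, (L k).length ≤ n + e := by
    intro x hx
    obtain ⟨m, hm, hw⟩ := hB.2 x hx
    have hm' : m ≤ n + e := by exact_mod_cast hm
    obtain ⟨l, l1, l2, l3⟩ := reach_of_walk hw
    obtain ⟨r', rfl⟩ : ∃ r', r = r' + 1 := ⟨r - 1, by omega⟩
    have hlt := Nat.lt_mul_div_succ (n + e) hr
    obtain ⟨v, L, a1, a2, a3, a4⟩ := l1.cut ((n + e) / (r' + 1) + 1) r' (by omega)
    refine ⟨v, L, a1, a2, fun k hk => ?_, by omega⟩
    obtain ⟨b1, b2, b3⟩ := a3 k hk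
    exact ⟨b1, b2, fun q hq => l3 q (b3 q hq)⟩
  have : Nonempty (Fin B.size) := ⟨B.source⟩
  choose! v L v0 vr hL hs using seg
  let R : (Fin n → Bool) → Fin r → Finset (Fin n) := fun x k => ((L x k).map Prod.fst).toFinset
  have hR : ∀ x k i, i ∈ R x k ↔ ∃ q ∈ L x k, q.1 = i := fun x k i => by
    simp only [R, List.mem_toFinset, List.mem_map]
  have cR : ∀ x k, (R x k).card ≤ (L x k).length := fun x k =>
    (List.toFinset_card_le _).trans (by rw [List.length_map])
  have hc : ∀ x, f x = true → ∀ i, ∃ k, i ∈ R x k := by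
    intro x hx i
    by_contra hcon
    push Not at hcon
    refine cov (v x) x i (v0 x hx) (vr x hx) fun k hk => ⟨L x k, (hL x hx k hk).1, fun q hq =>
      ⟨(hL x hx k hk).2.2 q hq, fun hi => hcon ⟨k, hk⟩ ((hR x ⟨k, hk⟩ i).2 ⟨q, hq, hi⟩)⟩⟩
  let E : (Fin n → Bool) → Finset (Fin n) := fun x =>
    univ.filter fun i => 2 ≤ (univ.filter fun k => i ∈ R x k).card
  have cE : ∀ x, f x = true → (E x).card ≤ e := fun x hx =>
    card_twice (R x) (hc x hx) (by
      refine (sum_le_sum fun k _ => cR x k).trans ?_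
      rw [Fin.sum_univ_eq_sum_range (fun k => (L x k).length)]
      exact hs x hx)
  have : Nonempty (Fin r) := ⟨⟨0, hr⟩⟩
  choose! σ hσ using hc
  let τ : (Fin n → Bool) → Fin n → Fin r := fun x i =>
    if i ∈ E x ∨ i ∉ A then ⟨0, hr⟩ else σ x i
  have hτ : ∀ x, f x = true → ∀ i, ¬ (i ∈ E x ∨ i ∉ A) → ∀ k, i ∈ R x k ↔ τ x i = k := by
    intro x hx i hi k
    simp only [τ, if_neg hi]
    refine ⟨fun hk => ?_, fun hk => hk ▸ hσ x hx i⟩
    by_contra hne
    refine hi (Or.inl (mem_filter.2 ⟨mem_univ _, ?_⟩))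
    exact one_lt_card.2 ⟨σ x i, by simp [hσ x hx i], k, by simp [hk], hne⟩
  let key : (Fin n → Bool) →
      (Fin (r + 1) → Fin B.size) × ((Aᶜ : Finset (Fin n)) → Bool) × (Fin n → Option Bool) :=
    fun x => (fun k => v x k, fun i => x i, fun i => if i ∈ E x then some (x i) else none)
  let G := univ.filter fun g : Fin n → Option Bool => (univ.filter fun i => g i ≠ none).card ≤ e
  let T : Finset ((Fin (r + 1) → Fin B.size) × ((Aᶜ : Finset (Fin n)) → Bool) ×
      (Fin n → Option Bool)) := univ ×ˢ univ ×ˢ G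
  let Y := univ.filter fun x => f x = true
  have hT : ∀ x ∈ Y, key x ∈ T := by
    intro x hx
    refine mem_product.2 ⟨mem_univ _, mem_product.2 ⟨mem_univ _, mem_filter.2 ⟨mem_univ _, ?_⟩⟩⟩
    refine le_trans (card_le_card fun i hi => ?_) (cE x (mem_filter.1 hx).2)
    by_contra hn
    exact (mem_filter.1 hi).2 (if_neg hn)
  have nT : T.Nonempty := ⟨(fun _ => B.source, fun _ => true, fun _ => none),
    mem_product.2 ⟨mem_univ _, mem_product.2 ⟨mem_univ _, by simp [G]⟩⟩⟩
  obtain ⟨t, -, ht⟩ := exists_max_image T (fun t => (Y.filter fun x => key x = t).card) nT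
  have hX : ∀ x ∈ Y.filter fun x => key x = t, f x = true := fun x hx =>
    (mem_filter.1 (mem_filter.1 hx).1).2
  have hk : ∀ x ∈ Y.filter fun x => key x = t, ∀ x' ∈ Y.filter fun x => key x = t,
      (∀ k ≤ r, v x k = v x' k) ∧ (∀ i, i ∈ E x ↔ i ∈ E x') ∧
        ∀ i, i ∈ E x ∨ i ∉ A → x i = x' i := by
    intro x hx x' hx'
    have h : key x = key x' := (mem_filter.1 hx).2.trans (mem_filter.1 hx').2.symm
    have h1 := congrArg Prod.fst h
    have h2 := congrArg (fun p => p.2.1) h
    have h3 := congrArg (fun p => p.2.2) h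
    have h4 : ∀ i, (if i ∈ E x then some (x i) else none) =
        if i ∈ E x' then some (x' i) else none := fun i => congrFun h3 i
    have h5 : ∀ i, i ∈ E x ↔ i ∈ E x' := fun i => by
      have := h4 i
      by_cases a1 : i ∈ E x <;> by_cases a2 : i ∈ E x'
      · exact iff_of_true a1 a2
      · rw [if_pos a1, if_neg a2] at this; cases this
      · rw [if_neg a1, if_pos a2] at this; cases this
      · exact iff_of_false a1 a2
    refine ⟨fun k hk => congrFun h1 ⟨k, by omega⟩, h5, fun i hi => ?_⟩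
    rcases hi with hi | hi
    · have := h4 i
      rw [if_pos hi, if_pos ((h5 i).1 hi)] at this
      exact Option.some.inj this
    · exact congrFun h2 ⟨i, mem_compl.2 hi⟩
  refine ⟨Y.filter fun x => key x = t, τ, ⟨?_, ?_, ?_, ?_⟩, ?_⟩
  · have half : ∀ x ∈ Y.filter fun x => key x = t, ∀ x' ∈ Y.filter fun x => key x = t, ∀ k,
        (∀ i, τ x' i = k → x i = x' i) → ∀ i, τ x i = k → τ x' i = k := by
      intro x hx x' hx' k H i hi
      obtain ⟨k1, k2, k3⟩ := hk x hx x' hx'
      have fx := hX x hx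
      have fx' := hX x' hx'
      by_cases hF : i ∈ E x ∨ i ∉ A
      · have hF' : i ∈ E x' ∨ i ∉ A := by rwa [← k2 i]
        simp only [τ, if_pos hF] at hi
        simp only [τ, if_pos hF', hi]
      · have hF' : ¬ (i ∈ E x' ∨ i ∉ A) := by rwa [← k2 i]
        by_contra hne
        refine cov (v x) x i (v0 x fx) (vr x fx) fun j hj => ?_
        by_cases hjk : (⟨j, hj⟩ : Fin r) = k
        · refine ⟨L x' j, ?_, fun q hq => ⟨?_, fun hqi => hne ?_⟩⟩
          · rw [k1 j (by omega), k1 (j + 1) (by omega)]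
            exact (hL x' fx' j hj).1
          · rw [← (hL x' fx' j hj).2.2 q hq]
            by_cases hq1 : q.1 ∈ E x ∨ q.1 ∉ A
            · exact k3 _ hq1
            · refine H _ ?_
              rw [← hjk]
              exact (hτ x' fx' _ (by rwa [← k2]) _).1 ((hR x' ⟨j, hj⟩ _).2 ⟨q, hq, rfl⟩)
          · rw [← hjk]
            exact (hτ x' fx' _ hF' _).1 ((hR x' ⟨j, hj⟩ _).2 ⟨q, hq, hqi⟩)
        · refine ⟨L x j, (hL x fx j hj).1, fun q hq => ⟨(hL x fx j hj).2.2 q hq, fun hqi => hjk ?_⟩⟩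
          rw [← hi]
          exact ((hτ x fx _ hF _).1 ((hR x ⟨j, hj⟩ _).2 ⟨q, hq, hqi⟩)).symm
    intro x hx x' hx' k H i
    exact ⟨half x hx x' hx' k (fun j hj => H j (Or.inr hj)) i,
      half x' hx' x hx k (fun j hj => (H j (Or.inl hj)).symm) i⟩
  · intro x hx k
    have fx := hX x hx
    have hsub : (univ.filter fun i => τ x i = k) ⊆ R x k ∪ E x ∪ Aᶜ := by
      intro i hi
      by_cases hF : i ∈ E x ∨ i ∉ A
      · rcases hF with hF | hF
        · exact mem_union_left _ (mem_union_right _ hF)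
        · exact mem_union_right _ (mem_compl.2 hF)
      · exact mem_union_left _ (mem_union_left _ ((hτ x fx i hF k).2 (mem_filter.1 hi).2))
    have c1 := card_le_card hsub
    have c2 := card_union_le (R x k ∪ E x) Aᶜ
    have c3 := card_union_le (R x k) (E x)
    have c4 := cR x k
    have c5 := (hL x fx k k.2).2.1
    have c6 := cE x fx
    omega
  · intro x hx x' hx' J H
    obtain ⟨k1, k2, k3⟩ := hk x hx x' hx'
    have fx := hX x hx
    have fx' := hX x' hx'
    refine acc (v x) _ (v0 x fx) (vr x fx) fun j hj => ?_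
    by_cases hJ : (⟨j, hj⟩ : Fin r) ∈ J
    · refine ⟨L x j, (hL x fx j hj).1, fun q hq => ?_⟩
      rw [← (hL x fx j hj).2.2 q hq]
      by_cases hq1 : q.1 ∈ E x ∨ q.1 ∉ A
      · rw [← k3 _ hq1, ite_self]
      · rw [(hτ x fx _ hq1 _).1 ((hR x ⟨j, hj⟩ _).2 ⟨q, hq, rfl⟩), if_pos hJ]
    · refine ⟨L x' j, ?_, fun q hq => ?_⟩
      · rw [k1 j (by omega), k1 (j + 1) (by omega)]
        exact (hL x' fx' j hj).1
      · rw [← (hL x' fx' j hj).2.2 q hq]
        by_cases hq1 : q.1 ∈ E x ∨ q.1 ∉ A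
        · rw [← k3 _ hq1, ite_self]
        · rw [if_neg]
          rw [H, (hτ x' fx' _ (by rwa [← k2]) _).1 ((hR x' ⟨j, hj⟩ _).2 ⟨q, hq, rfl⟩)]
          exact hJ
  · intro x hx x' hx' i hi
    exact (hk x hx x' hx').2.2 i (Or.inr hi)
  · have c1 := card_le_mul_card_image_of_maps_to hT _ ht
    have c2 : T.card = B.size ^ (r + 1) * (2 ^ Aᶜ.card * G.card) := by
      simp only [T, card_product, card_univ, Fintype.card_fun, Fintype.card_fin,
        Fintype.card_bool, Fintype.card_coe]
    have c3 : (G.card : ℝ) ≤ _ := count_opt n e ha0 ha1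
    rw [c2] at c1
    have c4 : (Y.card : ℝ) ≤ (Y.filter fun x => key x = t).card *
        ((B.size : ℝ) ^ (r + 1) * (2 ^ Aᶜ.card * G.card)) := by exact_mod_cast c1
    refine c4.trans ?_
    rw [mul_assoc ((B.size : ℝ) ^ (r + 1))]
    exact mul_le_mul_of_nonneg_left (mul_le_mul_of_nonneg_left
      (mul_le_mul_of_nonneg_left c3 (by positivity)) (by positivity)) (Nat.cast_nonneg _)

end Pool.Agent.Lib.MP_79d702_lc.NBP
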